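import Pool.Agent.Lib.MP_49fa77_co.H30.Nr

/-!
# The final theorem in the Euclidean plane
-/

set_option autoImplicit false

namespace FT58.AS.H30

open Real MeasureTheory Set Metric Filter Relation FT58 FT58.AS

theorem dT_plane (n : ℕ) : dT (EuclideanSpace ℝ (Fin 2)) n = dT ℂ n := by
  set e : ℂ ≃ₗᵢ[ℝ] EuclideanSpace ℝ (Fin 2) := Complex.orthonormalBasisOneI.repr with he
  have hv : ∀ X : Set ℂ, volume (e '' X) = volume X := by
    intro X
    have hmp : MeasurePreserving e.symm := e.symm.measurePreserving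
    have : e '' X = e.symm ⁻¹' X := e.toEquiv.image_eq_preimage_symm X
    rw [this]
    exact hmp.measure_preimage_equiv (f := e.symm.toMeasurableEquiv) X
  exact dT_transfer e hv n

theorem final (hFU : FuS) (hLD : LdS) :
    ∃ C : ℝ, ∀ n : ℕ, 1 ≤ n →
      ENNReal.ofReal (1 - (2 * √3 - π) / (3 * √3 / 2 * n) - C * (n : ℝ) ^ (-(7 / 6) : ℝ)) ≤
        dT (EuclideanSpace ℝ (Fin 2)) n ∧
      dT (EuclideanSpace ℝ (Fin 2)) n ≤
        ENNReal.ofReal (1 - (2 * √3 - π) / (3 * √3 / 2 * n + 4)) := by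
  obtain ⟨C, _, hC⟩ := lower_rate hLD
  refine ⟨C, fun n hn => ?_⟩
  rw [dT_plane]
  refine ⟨?_, hFU n hn⟩
  have h := hC n hn
  rwa [div_div] at h

end FT58.AS.H30
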