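import Pool.Agent.Lib.MP_49fa77_co.H30.Iface
import Pool.Agent.Lib.MP_49fa77_co.Cyc

/-!
# Module TB: top and bottom of a component
-/

set_option autoImplicit false

namespace FT58.AS.H30

open Real MeasureTheory Set Metric Filter Relation FT58 FT58.AS

section
open Classical

lemma Hs_symm {S : Finset ℂ} {c q : ℂ} (h : Hs S c q) : Hs S q c :=
  ⟨h.2.1, h.1, Se_symm h.2.2⟩

lemma Bd_Hs {S : Finset ℂ} {c q : ℂ} (h : Bd (MX S S) c q) : Hs S c q := by
  obtain ⟨⟨r, hr⟩, h2⟩ := h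
  have hT := (MX_Rg S S).tr _ _ _ hr
  have h3 := ((MX_Rg S S).bd _ _ _ hr).resolve_left h2
  exact ⟨hT.1, hT.2.1, (Tr_ne hT).1, h3.1, h3.2⟩

lemma bw_eq {S : Finset ℂ} {w : ℂ → ℂ → ℂ → ℝ} {c q r : ℂ} (h : Tr S c q r) :
    bw S (Tr S) w c q = w c q r := by
  unfold bw
  rw [Finset.sum_eq_single r]
  · rw [if_pos h]
  · intro r' _ hne
    rw [if_neg]
    intro h'
    exact hne (Tr_unique h' h)
  · intro h'
    exact absurd h.2.2.1 h'

lemma bw_zero {S : Finset ℂ} {w : ℂ → ℂ → ℂ → ℝ} {c q : ℂ} (h : ¬ ∃ r, Tr S c q r) :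
    bw S (Tr S) w c q = 0 := by
  unfold bw
  refine Finset.sum_eq_zero fun r _ => ?_
  rw [if_neg]
  exact fun h' => h ⟨r, h'⟩

lemma dt_sub (x y e : ℂ) : dt (x - y) e = dt x e - dt y e := by
  simp only [dt, Complex.sub_re, Complex.sub_im]; ring

lemma dt_neg_right (x e : ℂ) : dt x (-e) = -dt x e := by
  simp only [dt, Complex.neg_re, Complex.neg_im]; ring

theorem tb_st (hHO : HoS) (hFA : FaS) (hFB : FbS) : TbS := by
  intro S hG e he u hu d hd hud htop hbot
  have hR := MX_Rg S S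
  -- the short component of the top
  let A : ℂ → Prop := fun x => ReflTransGen (Hs S) u x
  have hAs : ∀ x y, Hs S x y → (A x ↔ A y) := fun x y h =>
    ⟨fun hx => hx.tail h, fun hy => hy.tail (Hs_symm h)⟩
  have hFam : Fam S (MX S S) := hR.toFam
  -- the circulation
  let φ : ℂ → ℂ → ℝ := fun c q => (if Bd (MX S S) c q ∧ A c then (1 : ℝ) else 0)
    - (if Bd (MX S S) q c ∧ A q then (1 : ℝ) else 0)
  have hφa : ∀ c q, φ q c = -φ c q := fun c q => by simp only [φ]; ring
  have hφs : ∀ c ∈ S, ∀ q ∈ S, φ c q ≠ 0 → Eg S c q := by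
    intro c _ q _ h
    by_cases h1 : Bd (MX S S) c q ∧ A c
    · exact ⟨(Bd_Hs h1.1).2.2.1, (Bd_Hs h1.1).2.2.2.1⟩
    · by_cases h2 : Bd (MX S S) q c ∧ A q
      · exact Eg_symm ⟨(Bd_Hs h2.1).2.2.1, (Bd_Hs h2.1).2.2.2.1⟩
      · exact absurd (by simp only [φ, if_neg h1, if_neg h2, sub_zero]) h
  have hφ0 : ∀ c ∈ S, ∑ q ∈ S, φ c q = 0 := by
    intro c hc
    simp only [φ]
    rw [Finset.sum_sub_distrib]
    by_cases hAc : A c
    · have e1 : ∀ q ∈ S, (if Bd (MX S S) c q ∧ A c then (1 : ℝ) else 0)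
          = if Bd (MX S S) c q then (1 : ℝ) else 0 := by
        intro q _
        by_cases h : Bd (MX S S) c q
        · rw [if_pos ⟨h, hAc⟩, if_pos h]
        · rw [if_neg (fun h' => h h'.1), if_neg h]
      have e2 : ∀ q ∈ S, (if Bd (MX S S) q c ∧ A q then (1 : ℝ) else 0)
          = if Bd (MX S S) q c then (1 : ℝ) else 0 := by
        intro q _
        by_cases h : Bd (MX S S) q c
        · rw [if_pos ⟨h, (hAs q c (Bd_Hs h)).mpr hAc⟩, if_pos h]
        · rw [if_neg (fun h' => h h'.1), if_neg h]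
      rw [Finset.sum_congr rfl e1, Finset.sum_congr rfl e2, deg_eq hFam hc, sub_self]
    · have e1 : ∀ q ∈ S, (if Bd (MX S S) c q ∧ A c then (1 : ℝ) else 0) = 0 := by
        intro q _
        rw [if_neg (fun h' => hAc h'.2)]
      have e2 : ∀ q ∈ S, (if Bd (MX S S) q c ∧ A q then (1 : ℝ) else 0) = 0 := by
        intro q _
        rw [if_neg (fun h' => hAc ((hAs q c (Bd_Hs h'.1)).mp h'.2))]
      rw [Finset.sum_eq_zero e1, Finset.sum_eq_zero e2, sub_self]
  obtain ⟨w, hwc, hw⟩ := hHO S hG ⟨u, hu⟩ φ hφa hφs hφ0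
  -- (1) the weights vanish off the region
  have hpos : ∀ c q r, Tr S c q r → 0 < w c q r → MX S S c q r := by
    intro c₀ q₀ r₀ h0 hw0
    have hRg : Rg S S (fun c q r => Tr S c q r ∧ 0 < w c q r) := by
      refine ⟨⟨fun c q r h => h.1, fun c q r h => ⟨Tr_cyc h.1, by rw [hwc]; exact h.2⟩⟩, ?_⟩
      rintro c q r ⟨hT, hwp⟩
      by_cases hL : Lf (fun c q r => Tr S c q r ∧ 0 < w c q r) q c
      · exact Or.inl hL
      · right
        have hle : bw S (Tr S) w q c ≤ 0 := by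
          by_cases h1 : ∃ r', Tr S q c r'
          · obtain ⟨r', hr'⟩ := h1
            rw [bw_eq hr']
            by_contra hlt
            exact hL ⟨r', hr', not_le.mp hlt⟩
          · rw [bw_zero h1]
        have hφp : 0 < φ c q := by
          rw [hw c hT.1 q hT.2.1, bw_eq hT]; linarith
        by_cases h1 : Bd (MX S S) c q ∧ A c
        · exact ⟨(Bd_Hs h1.1).2.2.2.1, (Bd_Hs h1.1).2.2.2.2⟩
        · exfalso
          simp only [φ, if_neg h1] at hφp
          split_ifs at hφp <;> linarith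
    exact MX_max hRg ⟨h0, hw0⟩
  have hneg : ∀ c q r, Tr S c q r → w c q r < 0 → MX S S c q r := by
    intro c₀ q₀ r₀ h0 hw0
    have hRg : Rg S S (fun c q r => Tr S c q r ∧ w c q r < 0) := by
      refine ⟨⟨fun c q r h => h.1, fun c q r h => ⟨Tr_cyc h.1, by rw [hwc]; exact h.2⟩⟩, ?_⟩
      rintro c q r ⟨hT, hwp⟩
      by_cases hL : Lf (fun c q r => Tr S c q r ∧ w c q r < 0) q c
      · exact Or.inl hL
      · right
        have hle : 0 ≤ bw S (Tr S) w q c := by
          by_cases h1 : ∃ r', Tr S q c r'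
          · obtain ⟨r', hr'⟩ := h1
            rw [bw_eq hr']
            by_contra hlt
            exact hL ⟨r', hr', not_le.mp hlt⟩
          · rw [bw_zero h1]
        have hφp : φ c q < 0 := by
          rw [hw c hT.1 q hT.2.1, bw_eq hT]; linarith
        by_cases h1 : Bd (MX S S) q c ∧ A q
        · have h2 := Hs_symm (Bd_Hs h1.1)
          exact ⟨h2.2.2.2.1, h2.2.2.2.2⟩
        · exfalso
          simp only [φ, if_neg h1] at hφp
          split_ifs at hφp <;> linarith
    exact MX_max hRg ⟨h0, hw0⟩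
  have hoff : ∀ c q, ¬ Lf (MX S S) c q → bw S (Tr S) w c q = 0 := by
    intro c q h
    by_cases h1 : ∃ r, Tr S c q r
    · obtain ⟨r, hr⟩ := h1
      rw [bw_eq hr]
      rcases lt_trichotomy (w c q r) 0 with h2 | h2 | h2
      · exact absurd ⟨r, hneg _ _ _ hr h2⟩ h
      · exact h2
      · exact absurd ⟨r, hpos _ _ _ hr h2⟩ h
    · exact bw_zero h1
  -- (2) the two parts of the region
  set M0 : ℂ → ℂ → ℂ → Prop := fun c q r => MX S S c q r ∧ w c q r = 0 with hM0
  set M1 : ℂ → ℂ → ℂ → Prop := fun c q r => MX S S c q r ∧ w c q r ≠ 0 with hM1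
  have F0 : Fam S M0 := ⟨fun c q r h => hR.tr _ _ _ h.1,
    fun c q r h => ⟨hR.cyc _ _ _ h.1, by rw [hwc]; exact h.2⟩⟩
  have F1 : Fam S M1 := ⟨fun c q r h => hR.tr _ _ _ h.1,
    fun c q r h => ⟨hR.cyc _ _ _ h.1, by rw [hwc]; exact h.2⟩⟩
  have hmem : ∀ c q, Lf (MX S S) c q → c ∈ S ∧ q ∈ S := by
    rintro c q ⟨r, hr⟩
    have hT := hR.tr _ _ _ hr
    exact ⟨hT.1, hT.2.1⟩
  -- no jump inside the region
  have hin : ∀ c q, Lf (MX S S) c q → Lf (MX S S) q c →
      bw S (Tr S) w c q = bw S (Tr S) w q c := by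
    intro c q h1 h2
    have h3 : φ c q = 0 := by
      simp only [φ]
      rw [if_neg (fun h => h.1.2 h2), if_neg (fun h => h.1.2 h1), sub_zero]
    have h4 := hw c (hmem c q h1).1 q (hmem c q h1).2
    rw [h3] at h4
    linarith
  have b0 : ∀ c q, Lf M0 c q → ¬ Lf M0 q c → ¬ A c ∧ ¬ A q := by
    rintro c q ⟨r, hr, hwr⟩ hn
    have hT := hR.tr _ _ _ hr
    have hL : Lf (MX S S) c q := ⟨r, hr⟩
    have hnq : ¬ Lf (MX S S) q c := by
      rintro ⟨r', hr'⟩
      have h1 := hin c q hL ⟨r', hr'⟩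
      rw [bw_eq hT, bw_eq (hR.tr _ _ _ hr'), hwr] at h1
      exact hn ⟨r', hr', h1.symm⟩
    have hB : Bd (MX S S) c q := ⟨hL, hnq⟩
    have hnA : ¬ A c := by
      intro hAc
      have h1 := hw c hT.1 q hT.2.1
      rw [bw_eq hT, hwr, hoff q c hnq] at h1
      simp only [φ] at h1
      rw [if_pos ⟨hB, hAc⟩, if_neg (fun h => h.1.2 hL)] at h1
      norm_num at h1
    exact ⟨hnA, fun hq => hnA ((hAs c q (Bd_Hs hB)).mpr hq)⟩
  have b1 : ∀ c q, Lf M1 c q → ¬ Lf M1 q c → A c ∧ A q := by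
    rintro c q ⟨r, hr, hwr⟩ hn
    have hT := hR.tr _ _ _ hr
    have hL : Lf (MX S S) c q := ⟨r, hr⟩
    have hnq : ¬ Lf (MX S S) q c := by
      rintro ⟨r', hr'⟩
      have h1 := hin c q hL ⟨r', hr'⟩
      rw [bw_eq hT, bw_eq (hR.tr _ _ _ hr')] at h1
      exact hn ⟨r', hr', by rw [← h1]; exact hwr⟩
    have hB : Bd (MX S S) c q := ⟨hL, hnq⟩
    have hAc : A c := by
      by_contra hAc
      have h1 := hw c hT.1 q hT.2.1
      rw [bw_eq hT, hoff q c hnq] at h1
      simp only [φ] at h1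
      rw [if_neg (fun h => hAc h.2), if_neg (fun h => h.1.2 hL)] at h1
      exact hwr (by linarith)
    exact ⟨hAc, (hAs c q (Bd_Hs hB)).mp hAc⟩
  have c0 : ∀ y, A y → Clo M0 y := by
    intro y hy q
    constructor
    · intro h
      by_contra hn
      exact (b0 y q h hn).1 hy
    · intro h
      by_contra hn
      exact (b0 q y h hn).2 hy
  have c1 : ∀ y, ¬ A y → Clo M1 y := by
    intro y hy q
    constructor
    · intro h
      by_contra hn
      exact hy (b1 y q h hn).1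
    · intro h
      by_contra hn
      exact hy (b1 q y h hn).2
  have hgM : ∀ c q, Lf (MX S S) c q → Hg S c q := fun c q h =>
    ⟨(hmem c q h).1, (hmem c q h).2, Or.inr (Or.inl h)⟩
  have hLM0 : ∀ c q, Lf M0 c q → Lf (MX S S) c q := fun c q ⟨r, hr⟩ => ⟨r, hr.1⟩
  have hLM1 : ∀ c q, Lf M1 c q → Lf (MX S S) c q := fun c q ⟨r, hr⟩ => ⟨r, hr.1⟩
  -- (3)
  have hno : ∀ y, A y → ¬ ∃ q, Lf M0 y q := by
    rintro y hy ⟨q, hq⟩
    have hprop : ∀ x, ReflTransGen (Hs S) y x → A x ∧ ∃ q, Lf M0 x q := by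
      intro x hx
      induction hx with
      | refl => exact ⟨hy, q, hq⟩
      | @tail x x' _ hxx' ih =>
        obtain ⟨hAx, q', hq'⟩ := ih
        refine ⟨hAx.tail hxx', x, ?_⟩
        have h1 := hFB S M0 hG F0 x (c0 x hAx) q' hq' x' hxx'.2.1 ⟨hxx'.2.2.1, hxx'.2.2.2.1⟩
        exact (c0 x hAx x').mp h1
    have hsym : ∀ x x', ReflTransGen (Hs S) x x' → ReflTransGen (Hs S) x' x := by
      intro x x' h
      induction h with
      | refl => exact ReflTransGen.refl
      | tail _ h2 ih => exact ReflTransGen.head (Hs_symm h2) ih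
    obtain ⟨hAu, q', hq'⟩ := hprop u (hsym u y hy)
    refine hFA S M0 hG F0 u q' hq' e ?_ (c0 u hAu)
    intro z hz
    have h1 := hgM u z (hLM0 u z hz)
    have h2 := htop z (ReflTransGen.single h1)
    have hne : z ≠ u := by
      rintro rfl
      obtain ⟨r, hr⟩ := hz
      exact (Tr_ne (F0.tr _ _ _ hr)).1 rfl
    have h3 := he z h1.2.1 u hu hne
    rw [dt_sub] at h3 ⊢
    rcases lt_or_eq_of_le h2 with h4 | h4
    · linarith
    · exact absurd (by rw [h4, sub_self]) h3
  -- (4)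
  have hK : ∀ z, ReflTransGen (Hg S) u z → A z ∨ ∃ q, Lf M1 z q := by
    intro z hz
    induction hz with
    | refl => exact Or.inl ReflTransGen.refl
    | @tail y z _ hyz ih =>
      have key : ∀ a b r, MX S S a b r → (a = y ∨ b = y) → (A y ∨ ∃ q, Lf M1 y q) →
          (a = z ∨ b = z) → A z ∨ ∃ q, Lf M1 z q := by
        intro a b r hr hy hKy hz
        have hT := hR.tr _ _ _ hr
        by_cases hAy : A y
        · have hn0 : ¬ M0 a b r := by
            intro h0
            rcases hy with rfl | rfl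
            · exact hno _ hAy ⟨b, r, h0⟩
            · exact hno _ hAy ⟨r, a, F0.cyc _ _ _ h0⟩
          have h1 : M1 a b r := ⟨hr, fun h => hn0 ⟨hr, h⟩⟩
          right
          rcases hz with rfl | rfl
          · exact ⟨b, r, h1⟩
          · exact ⟨r, a, F1.cyc _ _ _ h1⟩
        · obtain ⟨q, hq⟩ := hKy.resolve_left hAy
          by_cases hyz' : y = z
          · exact Or.inr ⟨q, hyz' ▸ hq⟩
          · have hE : Eg S y z := by
              have hab : Eg S a b := ⟨(Tr_ne hT).1, Tr_Ed hT⟩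
              rcases hy with rfl | rfl
              · rcases hz with h | rfl
                · exact absurd h hyz'
                · exact hab
              · rcases hz with rfl | h
                · exact Eg_symm hab
                · exact absurd h hyz'
            have h1 := hFB S M1 hG F1 y (c1 y hAy) q hq z hyz.2.1 hE
            exact Or.inr ⟨y, (c1 y hAy z).mp h1⟩
      rcases hyz.2.2 with h | ⟨r, hr⟩ | ⟨r, hr⟩
      · by_cases hAy : A y
        · exact Or.inl (hAy.tail ⟨hyz.1, hyz.2.1, h⟩)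
        · obtain ⟨q, hq⟩ := ih.resolve_left hAy
          have h1 := hFB S M1 hG F1 y (c1 y hAy) q hq z hyz.2.1 ⟨h.1, h.2.1⟩
          exact Or.inr ⟨y, (c1 y hAy z).mp h1⟩
      · exact key y z r hr (Or.inl rfl) ih (Or.inr rfl)
      · exact key z y r hr (Or.inr rfl) ih (Or.inl rfl)
  -- (5)
  rcases hK d hud with h | ⟨q, hq⟩
  · exact h
  · by_contra hnd
    refine hFA S M1 hG F1 d q hq (-e) ?_ (c1 d hnd)
    intro z hz
    have h1 := hgM d z (hLM1 d z hz)
    have h2 := hbot z (hud.tail h1)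
    have hne : z ≠ d := by
      rintro rfl
      obtain ⟨r, hr⟩ := hz
      exact (Tr_ne (F1.tr _ _ _ hr)).1 rfl
    have h3 := he z h1.2.1 d hd hne
    rw [dt_neg_right]
    rw [dt_sub] at h3 ⊢
    rcases lt_or_eq_of_le h2 with h4 | h4
    · linarith
    · exact absurd (by rw [← h4, sub_self]) h3

end

end FT58.AS.H30
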