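import Pool.Agent.Lib.MP_49fa77_co.H30.Main3
import Pool.Agent.Lib.MP_49fa77_co.H30.Tb
import Pool.Agent.Lib.MP_49fa77_co.H30.Fin
import Pool.Agent.Lib.MP_49fa77_co.H02.Cl
import Pool.Agent.Lib.MP_49fa77_co.H03.Cv
import Pool.Agent.Lib.MP_49fa77_co.H05.Sp
import Pool.Agent.Lib.MP_49fa77_co.H06.Rg
import Pool.Agent.Lib.MP_49fa77_co.H22.Up
import Pool.Agent.Lib.MP_49fa77_co.H23.Mk
import Pool.Agent.Lib.MP_49fa77_co.H31.Fb
import Pool.Agent.Lib.MP_49fa77_co.H36.Ar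
import Pool.Agent.Lib.MP_49fa77_co.H38.Go
import Pool.Agent.Lib.MP_49fa77_co.H40.Ha
import Pool.Agent.Lib.MP_49fa77_co.H45.Fu
import Pool.Agent.Lib.MP_49fa77_co.H53.Ex
import Pool.Agent.Lib.MP_49fa77_co.H61.Ld
import Pool.Agent.Lib.MP_49fa77_co.H61.St
import Pool.Agent.Lib.MP_49fa77_co.H64.HC
import Pool.Agent.Lib.MP_49fa77_co.H65.Hb
import Pool.Agent.Lib.MP_49fa77_co.H65.To
import Pool.Agent.Lib.MP_49fa77_co.H67.PK
import Pool.Agent.Lib.MP_49fa77_co.H70.HO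
import Pool.Agent.Lib.MP_49fa77_co.H74.Ct
import Pool.Agent.Lib.MP_49fa77_co.H88.Fa
import Pool.Agent.Lib.MP_49fa77_co.H9.Cc
import Pool.Agent.Lib.MP_49fa77_co.H9.Pe
import Pool.Agent.Lib.MP_49fa77_co.H93.Pw
import Pool.Agent.Lib.MP_49fa77_co.H96.Un

/-!
# Assembly
-/

set_option autoImplicit false

namespace FT58.AS.H30

open FT58 FT58.AS

theorem ex_all (hDI : DiS) : ExS := H53.ex_st H88.fa_st hDI

theorem ho_all (hGA : GaS) (hDI : DiS) (hTR : TrS) : HoS :=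
  H70.ho_st hGA (ex_all hDI) H9.pe_st hTR

theorem tb_all (hGA : GaS) (hDI : DiS) (hTR : TrS) : TbS :=
  tb_st (ho_all hGA hDI hTR) H88.fa_st (H31.fb_st H88.fa_st)

theorem ct_all (hGA : GaS) (hDI : DiS) : CtS := H74.ct_st hGA (ex_all hDI) H9.pe_st H9.cc_st

theorem cl_all (hGA : GaS) (hDI : DiS) (hTR : TrS) : ClS :=
  H02.cl_st H05.sp_st hDI (tb_all hGA hDI hTR)

theorem rg_all : RgS :=
  H06.rg_st (H40.ha_st H93.pw_st) (H65.hb_st (H40.ha_st H93.pw_st)) H64.hc_st H36.ar_st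

theorem to_all (hGA : GaS) (hDI : DiS) (hTR : TrS) : ToS :=
  H65.to_st (ct_all hGA hDI) (cl_all hGA hDI hTR) rg_all H38.go_st

theorem fu_all (hGA : GaS) (hDI : DiS) (hTR : TrS) : FuS :=
  H45.fu_st (to_all hGA hDI hTR) (H96.un_st hDI) H22.up_st

theorem ld_all : LdS := H61.ld_st (H61.st_st H23.mk_st) H03.cv_st H67.pk_st

theorem up2_st : Up2S := by
  intro n D c hn hD0 hU
  exact iSup₂_le fun _ hV => H22.upper_density hn hD0 hU hV

end FT58.AS.H30
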