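import Pool.Agent.Lib.MP_49fa77_co.H30.Iface

/-!
# Interface, second part: strong forms of UN and UP, and the ring of six disks
-/

set_option autoImplicit false

namespace FT58.AS

open Real MeasureTheory Set Metric Filter Relation FT58

/-- UN2: the union inequality from the core inequality for small `δ`. -/
def Un2S : Prop :=
  ∀ (n : ℕ) (c : Fin n → ℂ) (D δ₀ : ℝ), 1 ≤ n → 0 ≤ D → 0 < δ₀ →
    (∀ (δ : ℝ) (e : ℂ) (S : Finset ℂ) (cl : ℂ → ℂ) (p : ℂ → Fin n → ℂ) (t : ℂ → ℂ),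
      δ < δ₀ → Lb c δ e S cl p t → 0 ≤ S.card * (2 * kap D) + sE S (Eg S) (val2 D S)) →
    ∀ T : Finset ℂ, (∀ v ∈ T, ∀ w ∈ T, v ≠ w → ∀ i j, 2 ≤ ‖(c i + v) - (c j + w)‖) →
      volume (⋃ x ∈ T ×ˢ (Finset.univ : Finset (Fin n)), closedBall (c x.2 + x.1) 1)
        ≤ ENNReal.ofReal D * volume (⋃ x ∈ T ×ˢ (Finset.univ : Finset (Fin n)),
          closedBall (c x.2 + x.1) (2 / √3))

/-- UP2: from the union inequality to the density, for one set of centres. -/
def Up2S : Prop :=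
  ∀ (n : ℕ) (D : ℝ) (c : Fin n → ℂ), 1 ≤ n → 0 ≤ D →
    (∀ T : Finset ℂ, (∀ v ∈ T, ∀ w ∈ T, v ≠ w → ∀ i j, 2 ≤ ‖(c i + v) - (c j + w)‖) →
      volume (⋃ x ∈ T ×ˢ (Finset.univ : Finset (Fin n)), closedBall (c x.2 + x.1) 1)
        ≤ ENNReal.ofReal D * volume (⋃ x ∈ T ×ˢ (Finset.univ : Finset (Fin n)),
          closedBall (c x.2 + x.1) (2 / √3))) →
    transDensity (unitDisks c) ≤ ENNReal.ofReal D

/-- The vertices of the regular hexagon of side one. -/
noncomputable def ring (k : Fin 6) : ℂ := om ^ (k : ℕ)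

/-- RV: the area of the union of the six disks.  (Disjoint pieces: the rotations by multiples of
60 degrees of `{z | √3 * |z.im| < z.re ∧ ‖z - 1‖ ≤ 1}`, each of area `∫ 2 cos²` over
`[-π/6, π/6]`, that is `π / 3 + √3 / 2`; see `polar_vol` in `Polar.lean`.) -/
def RvS : Prop := ENNReal.ofReal (2 * π + 3 * √3) ≤ volume (unitDisks ring)

/-- The golden ratio. -/
noncomputable def gr : ℝ := (1 + √5) / 2

/-- The lattice: `φ + φ² ω` and its rotation by 60 degrees, `-φ² + φ³ ω`. -/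
noncomputable def ra : ℂ := gr + (gr ^ 2 : ℝ) * om
noncomputable def rb : ℂ := -(gr ^ 2 : ℝ) + (gr ^ 3 : ℝ) * om

/-- RP: the packing property of the ring and the determinant.  (In the basis `1, om` the
differences `ring i - ring j` are integer vectors `(x, y)` with `|x|, |y|, |x + y| ≤ 2`; the
norm form is `X² + XY + Y²`.  For `q₁² + q₁ q₂ + q₂² ≥ 3` use the triangle inequality,
`‖lv ra rb q‖² = 2 φ⁴ (q₁² + q₁ q₂ + q₂²)`; the other six `q` are rotations of `(1, 0)`, for which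
the claim is `x² + xy + y² + x (3 φ + 1) + y (3 φ + 2) + 6 φ ≥ 0`, with equality at `(0, -2)` and
`(-1, -1)`.) -/
def RpS : Prop :=
  (∀ q : ℤ × ℤ, q ≠ 0 → ∀ i j : Fin 6, 2 ≤ ‖(ring i - ring j) + lv ra rb q‖) ∧
    ra.re * rb.im - ra.im * rb.re = (7 * √3 + 3 * √15) / 2

/-- RN: numbers.  (The maximum of `gdens 6` is 0.96686352, at 0.4572; the density of the ring is
0.96695362.  For the first part: `Delta_lower`, `Ar_upper`, the tangent inequalities `tan5`,
`tan7`, `tan9` in `Num5.lean`.) -/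
def RnS : Prop :=
  (∀ b : ℝ, 0 ≤ b → b ≤ 1 → gdens 6 b ≤ 9669 / 10000) ∧
    9669 / 10000 < (2 * π + 3 * √3) / ((7 * √3 + 3 * √15) / 2)

end FT58.AS
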