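import Pool.Agent.Lib.MP_49fa77_co.H30.Flat
import Pool.Agent.Lib.MP_49fa77_co.H30.Iface2
import Pool.Agent.Lib.MP_49fa77_co.Chain
import Pool.Agent.Lib.MP_49fa77_co.Num

/-!
# Collinear and tree-like unions: the best density is that of a chain
-/

set_option autoImplicit false

namespace FT58.AS.H30

open Real MeasureTheory Set Metric Filter Relation FT58 FT58.AS

lemma gdens_lt_one {n : ℕ} (hn : 1 ≤ n) {a : ℝ} (h0 : 0 ≤ a) (h1 : a ≤ 1) : gdens n a < 1 := by
  unfold gdens
  rw [div_lt_one (den_pos hn h0)]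
  have h2 := Delta_lower h0 h1
  have h3 : 0 ≤ Pa a := by unfold Pa; positivity
  have h4 : (1 : ℝ) ≤ n := by exact_mod_cast hn
  have h5 := sqrt3_gt
  have h6 := Real.pi_lt_d2
  have h7 : 0 ≤ 2 * ((n : ℝ) - 1) * (Ar a - Ca a) := by
    apply mul_nonneg (by linarith) (by linarith)
  nlinarith

theorem flat_le (hCT : CtS) (hCL : ClS) (hUN : Un2S) (hUP : Up2S) {n : ℕ} (hn : 2 ≤ n) {D₀ : ℝ}
    (hD0 : 0 ≤ D₀) (hD1 : D₀ < 1) (hmax : ∀ b, 0 ≤ b → b ≤ 1 → gdens n b ≤ D₀) {c : Fin n → ℂ}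
    (hc : Flat c) : transDensity (unitDisks c) ≤ ENNReal.ofReal D₀ := by
  have hk := kap_nonneg hmax
  have hM : ∀ a, 0 < a → a < 1 → -(kap D₀ / ((n : ℝ) - 1)) ≤ GG D₀ a :=
    fun a h0 h1 => M_of_max hn hmax h0 h1
  have key : ∀ η : ℝ, 0 < η → D₀ + η ≤ 1 →
      transDensity (unitDisks c) ≤ ENNReal.ofReal (D₀ + η) := by
    intro η hη hη1
    obtain ⟨δ₀, hδ₀, hcore⟩ := core_flat hCT hCL hn hD0 hη hη1 hk hM hc
    exact hUP n (D₀ + η) c (by omega) (by linarith)
      (hUN n c (D₀ + η) δ₀ (by omega) (by linarith) hδ₀ hcore)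
  refine ENNReal.le_of_forall_pos_le_add fun ε hε _ => ?_
  set η : ℝ := min ε (1 - D₀) with hη
  have hη0 : 0 < η := lt_min (by exact_mod_cast hε) (by linarith)
  refine (key η hη0 (by linarith [min_le_right (ε : ℝ) (1 - D₀)])).trans ?_
  rw [ENNReal.ofReal_add hD0 hη0.le]
  gcongr
  calc ENNReal.ofReal η ≤ ENNReal.ofReal (ε : ℝ) :=
        ENNReal.ofReal_le_ofReal (min_le_left _ _)
    _ = ε := by simp

theorem chains_complex (hCT : CtS) (hCL : ClS) (hUN : Un2S) (hUP : Up2S) {n : ℕ} (hn : 2 ≤ n) :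
    ∃ s : ℝ, 0 < s ∧ s < 2 ∧
      (∀ t ∈ Icc (0 : ℝ) 2, chainDensity n t ≤ chainDensity n s) ∧
      (∀ p u : ℂ, ‖u‖ = 1 →
        transDensity (unitDisks (chain n p u s)) = ENNReal.ofReal (chainDensity n s)) ∧
      ∀ c : Fin n → ℂ, Flat c →
        transDensity (unitDisks c) ≤ ENNReal.ofReal (chainDensity n s) := by
  obtain ⟨a, ha0, ha1, hmax⟩ := exists_opt hn
  have hD0 : 0 ≤ gdens n a := by
    refine le_trans ?_ (hmax 0 le_rfl zero_le_one)
    rw [gdens_zero]; positivity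
  have hD1 : gdens n a < 1 := gdens_lt_one (by omega) ha0.le ha1.le
  have hcd : chainDensity n (2 * a) = gdens n a := by
    rw [chainDensity_eq, show 2 * a / 2 = a by ring]
  have hupper : ∀ c : Fin n → ℂ, Flat c → transDensity (unitDisks c) ≤ ENNReal.ofReal (gdens n a) :=
    fun c hc => flat_le hCT hCL hUN hUP hn hD0 hD1 hmax hc
  refine ⟨2 * a, by linarith, by linarith, ?_, ?_, ?_⟩
  · intro t ht
    rw [hcd, chainDensity_eq]
    exact hmax (t / 2) (by linarith [ht.1]) (by linarith [ht.2])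
  · intro p u hu
    rw [hcd]
    apply le_antisymm
    · apply hupper
      refine flat_collinear _ p u (fun i => (i : ℕ) * (2 * a)) fun i => ?_
      simp [chain]
    · obtain ⟨m, rfl⟩ : ∃ m, n = m + 1 := ⟨n - 1, by omega⟩
      have := chain_density_le (m := m) (s := 2 * a) (by linarith) (by linarith) p hu
      rwa [show 2 * a / 2 = a by ring] at this
  · rw [hcd]
    exact hupper

/-- the isometry between the two planes -/
theorem plane_iso : ∃ e : ℂ ≃ₗᵢ[ℝ] EuclideanSpace ℝ (Fin 2),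
    ∀ X : Set ℂ, volume (e '' X) = volume X := by
  refine ⟨Complex.orthonormalBasisOneI.repr, ?_⟩
  intro X
  set e : ℂ ≃ₗᵢ[ℝ] EuclideanSpace ℝ (Fin 2) := Complex.orthonormalBasisOneI.repr with he
  have hmp : MeasurePreserving e.symm := e.symm.measurePreserving
  have : e '' X = e.symm ⁻¹' X := e.toEquiv.image_eq_preimage_symm X
  rw [this]
  exact hmp.measure_preimage_equiv (f := e.symm.toMeasurableEquiv) X

theorem chains_plane (hCT : CtS) (hCL : ClS) (hUN : Un2S) (hUP : Up2S) {n : ℕ} (hn : 2 ≤ n) :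
    ∃ s : ℝ, 0 < s ∧ s < 2 ∧
      (∀ t ∈ Icc (0 : ℝ) 2, chainDensity n t ≤ chainDensity n s) ∧
      (∀ p u : EuclideanSpace ℝ (Fin 2), ‖u‖ = 1 →
        transDensity (unitDisks (chain n p u s)) = ENNReal.ofReal (chainDensity n s)) ∧
      ∀ c : Fin n → EuclideanSpace ℝ (Fin 2),
        (Collinear ℝ (range c) ∨ (overlapGraph c).IsAcyclic) →
        transDensity (unitDisks c) ≤ ENNReal.ofReal (chainDensity n s) := by
  obtain ⟨e, hv⟩ := plane_iso
  obtain ⟨s, h0, h2, hmax, hch, hup⟩ := chains_complex hCT hCL hUN hUP hn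
  refine ⟨s, h0, h2, hmax, ?_, ?_⟩
  · intro p u hu
    rw [chain_transfer e, unitDisks_image, transDensity_image e hv]
    apply hch
    rw [LinearIsometryEquiv.norm_map]; exact hu
  · intro c hc
    have hce : c = fun i => e (e.symm (c i)) := by ext i; simp
    rw [hce, unitDisks_image, transDensity_image e hv]
    apply hup
    rcases hc with hc | hc
    · rw [collinear_iff_exists_forall_eq_smul_vadd] at hc
      obtain ⟨p₀, v, hv'⟩ := hc
      choose! x hx using hv'
      refine flat_collinear _ (e.symm p₀) (e.symm v) (fun i => x (c i)) fun i => ?_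
      have h3 := hx (c i) (mem_range_self i)
      have h4 : e.symm (c i) = e.symm (x (c i) • v +ᵥ p₀) := by rw [← h3]
      rw [h4, vadd_eq_add, map_add, map_smul, add_comm, Complex.real_smul]
    · apply flat_forest
      have hG : overlapGraph (fun i => e.symm (c i)) = overlapGraph c := by
        ext i j
        show (i ≠ j ∧ dist (e.symm (c i)) (e.symm (c j)) < 2) ↔ (i ≠ j ∧ dist (c i) (c j) < 2)
        rw [LinearIsometryEquiv.dist_map]
      rw [hG]
      exact hc

end FT58.AS.H30
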