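import Pool.Agent.Lib.MP_49fa77_co.H30.All
import Pool.Agent.Lib.MP_49fa77_co.H30.Main3
import Pool.Agent.Lib.MP_49fa77_co.H16.Ga
import Pool.Agent.Lib.MP_49fa77_co.H24.Di
import Pool.Agent.Lib.MP_49fa77_co.H37.Tr

/-!
# Assembly, unconditional
-/

set_option autoImplicit false

namespace FT58.AS.H30

open Real MeasureTheory Set FT58 FT58.AS

theorem ctF : CtS := ct_all H16.ga_st di
theorem clF : ClS := cl_all H16.ga_st di H37.tr_st
theorem tbF : TbS := tb_all H16.ga_st di H37.tr_st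
theorem fuF : FuS := fu_all H16.ga_st di H37.tr_st

theorem chains_final {n : ℕ} (hn : 2 ≤ n) :
    ∃ s : ℝ, 0 < s ∧ s < 2 ∧
      (∀ t ∈ Icc (0 : ℝ) 2, chainDensity n t ≤ chainDensity n s) ∧
      (∀ p u : EuclideanSpace ℝ (Fin 2), ‖u‖ = 1 →
        transDensity (unitDisks (chain n p u s)) = ENNReal.ofReal (chainDensity n s)) ∧
      ∀ c : Fin n → EuclideanSpace ℝ (Fin 2),
        (Collinear ℝ (range c) ∨ (overlapGraph c).IsAcyclic) →
        transDensity (unitDisks c) ≤ ENNReal.ofReal (chainDensity n s) :=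
  chains_plane ctF clF (H96.un2_st di) up2_st hn

end FT58.AS.H30
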