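import Pool.Agent.Lib.MP_49fa77_co.H30.Iface2

/-!
# Interface, third part: the exact order of the error term

`1 - c / n - A n^(-7/6) ≤ d_T(n) ≤ 1 - c / n - B n^(-7/6)` for large `n`, with `0 < B`.
Paper proof: `Paper3.md`.
-/

set_option autoImplicit false

namespace FT58.AS

open Real MeasureTheory Set Metric Filter Relation FT58

/-- The length of an edge. -/
noncomputable def ln (c q : ℂ) : ℝ := ‖q - c‖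

/-- Outer short edges: directed short Delaunay edges without a triangle of the maximal region on
the left. -/
def Ou (S : Finset ℂ) (c q : ℂ) : Prop := Se S c q ∧ ¬ Lf (MX S S) c q

/-- Indices connected by short distances. -/
def Ic {n : ℕ} (c : Fin n → ℂ) : Fin n → Fin n → Prop :=
  ReflTransGen (fun i j => ‖c i - c j‖ < 2)

/-- The new bound. -/
noncomputable def Dn (γ : ℝ) (n : ℕ) : ℝ :=
  1 - (2 * √3 - π) / (3 * √3 / 2) / n - γ * (n : ℝ) ^ (-(7 / 6) : ℝ)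

/-- LV: level crossing. -/
def LvS : Prop :=
  ∀ (S : Finset ℂ), Gen S → ∀ e : ℂ, ∀ u ∈ S, ∀ d ∈ S, ReflTransGen (Hg S) u d →
    dt (u - d) e ≤ ‖e‖ * sE S (fun c q => Ou S c q ∧ ReflTransGen (Hg S) u c) ln

/-- LA: the area of the region and the length of its boundary. -/
def LaS : Prop :=
  ∀ (S : Finset ℂ) (R : ℝ), Gen S →
    (∀ x ∈ S, ∀ y ∈ S, ReflTransGen (Hg S) x y → ‖x - y‖ ≤ R) →
    sT S (MX S S) XX / 3 ≤ R * sE S (Ou S) ln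

/-- CU: cutting, with the lengths. -/
def CuS : Prop :=
  ∀ (D : ℝ) (S : Finset ℂ), 0 ≤ D → Gen S →
    ∃ (E : ℂ → ℂ → Prop) (T : ℂ → ℂ → ℂ → Prop), St S S E T ∧
      FV D S S E T ≤ FV D S S (Se S) (MX S S) ∧
      3 * nE S (fun c q => E c q ∧ ¬ Lf T c q) + nE S (Lf T)
        = 3 * nE S (Ou S) + nE S (Lf (MX S S)) ∧
      (∀ c q r, T c q r → ¬ Lf T q c → ¬ Bad c q r) ∧
      (∀ c q r, T c q r → MX S S c q r) ∧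
      sE S (Ou S) ln ≤ sE S (fun c q => E c q ∧ ¬ Lf T c q) ln

/-- RA: the value of a region and its area. -/
def RaS : Prop :=
  ∀ (D : ℝ) (S : Finset ℂ) (T : ℂ → ℂ → ℂ → Prop), 0 ≤ D → D ≤ 1 → Fam S T →
    (∀ c q r, T c q r → Lf T q c ∨ Sh c q) →
    (∀ c q r, T c q r → ¬ Lf T q c → ¬ Bad c q r) →
    -(kap D * (nE S (Lf T) / 3)) - (1 - D) * (sT S T XX / 6) ≤ sE S (Lf T) (val2 D S)

/-- C2: the size of the components. -/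
def C2S : Prop :=
  ∀ (n : ℕ) (c : Fin n → ℂ) (δ W : ℝ) (e : ℂ) (S : Finset ℂ) (cl : ℂ → ℂ)
    (p : ℂ → Fin n → ℂ) (t : ℂ → ℂ), Lb c δ e S cl p t → Lb c δ (Complex.I * e) S cl p t →
    e ≠ 0 → (∀ i j, Ic c i j → ‖c i - c j‖ ≤ W) → (∃ i j, Ic c i j ∧ ‖c i - c j‖ = W) →
    (∀ x ∈ S, ∀ y ∈ S, ReflTransGen (Hg S) x y → ‖x - y‖ ≤ 2 * (W + 3 * δ)) ∧
      (W / 2 - 3 * δ) * S.card ≤ n * sE S (Ou S) ln

/-- GE: area against the square of the length. -/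
def GeS : Prop :=
  ∀ (n : ℕ) (c : Fin n → ℂ), ∃ δ₀ : ℝ, 0 < δ₀ ∧
    ∀ (δ : ℝ) (e : ℂ) (S : Finset ℂ) (cl : ℂ → ℂ) (p : ℂ → Fin n → ℂ) (t : ℂ → ℂ), δ < δ₀ →
      e ≠ 0 → Lb c δ e S cl p t → Lb c δ (Complex.I * e) S cl p t →
      sT S (MX S S) XX / 3 ≤ S.card ∨
        S.card * (sT S (MX S S) XX / 3) ≤ 6 * n * sE S (Ou S) ln ^ 2

/-- U3: the union inequality, two orthogonal directions. -/
def Un3S : Prop :=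
  ∀ (n : ℕ) (c : Fin n → ℂ) (D δ₀ : ℝ), 1 ≤ n → 0 ≤ D → 0 < δ₀ →
    (∀ (δ : ℝ) (e : ℂ) (S : Finset ℂ) (cl : ℂ → ℂ) (p : ℂ → Fin n → ℂ) (t : ℂ → ℂ),
      δ < δ₀ → e ≠ 0 → Lb c δ e S cl p t → Lb c δ (Complex.I * e) S cl p t →
        0 ≤ S.card * (2 * kap D) + sE S (Eg S) (val2 D S)) →
    ∀ T : Finset ℂ, (∀ v ∈ T, ∀ w ∈ T, v ≠ w → ∀ i j, 2 ≤ ‖(c i + v) - (c j + w)‖) →
      volume (⋃ x ∈ T ×ˢ (Finset.univ : Finset (Fin n)), closedBall (c x.2 + x.1) 1)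
        ≤ ENNReal.ofReal D * volume (⋃ x ∈ T ×ˢ (Finset.univ : Finset (Fin n)),
          closedBall (c x.2 + x.1) (2 / √3))

/-- GS: the sum over outer edges. -/
def GsS : Prop :=
  ∀ (D : ℝ) (S : Finset ℂ) (X : ℂ → ℂ → Prop), 9 / 10 ≤ D → D ≤ 1 →
    (∀ c q, X c q → c ≠ q ∧ Sh c q) →
    -(kap D + 4 * ((1 - D) * √(1 - D))) * nE S X ≤ sE S X (gs D) ∧
      -(kap D + 6 * ((1 - D) * √(1 - D))) * nE S X
        + sE S X ln ^ 3 / (192 * (nE S X : ℝ) ^ 2) ≤ sE S X (gs D)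

/-- NM: the final inequality between numbers. -/
def NmS : Prop :=
  ∃ γ : ℝ, 0 < γ ∧ ∃ N₀ : ℕ, 1 ≤ N₀ ∧ ∀ n : ℕ, N₀ ≤ n → ∀ D : ℝ, D = Dn γ n →
    9 / 10 ≤ D ∧ D ≤ 1 ∧
    ∀ N m t B V G X L : ℝ, 0 < m → N = n * m → 0 ≤ t → 0 ≤ B → t + B + 2 * m ≤ 2 * N →
      -(kap D + Al D) * t ≤ V → -(kap D) * t - (1 - D) * (X / 2) ≤ V →
      -(kap D + 4 * ((1 - D) * √(1 - D))) * B ≤ G →
      -(kap D + 6 * ((1 - D) * √(1 - D))) * B + L ^ 3 / (192 * B ^ 2) ≤ G →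
      0 ≤ L → (B = 0 → L = 0) → (X ≤ N ∨ m * X ≤ 6 * L ^ 2) → 0 ≤ N * (2 * kap D) + V + G

/-- T2: the total is nonnegative. -/
def T2S : Prop :=
  ∃ γ : ℝ, 0 < γ ∧ ∃ N₀ : ℕ, 1 ≤ N₀ ∧ ∀ n : ℕ, N₀ ≤ n →
    0 ≤ Dn γ n ∧ ∀ c : Fin n → ℂ, ∃ δ₀ : ℝ, 0 < δ₀ ∧
      ∀ (δ : ℝ) (e : ℂ) (S : Finset ℂ) (cl : ℂ → ℂ) (p : ℂ → Fin n → ℂ) (t : ℂ → ℂ), δ < δ₀ →
        e ≠ 0 → Lb c δ e S cl p t → Lb c δ (Complex.I * e) S cl p t →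
        0 ≤ S.card * (2 * kap (Dn γ n)) + sE S (Eg S) (val2 (Dn γ n) S)

/-- F2: the upper bound. -/
def F2S : Prop :=
  ∃ γ : ℝ, 0 < γ ∧ ∃ N₀ : ℕ, 1 ≤ N₀ ∧ ∀ n : ℕ, N₀ ≤ n → dT ℂ n ≤ ENNReal.ofReal (Dn γ n)

end FT58.AS
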