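import Pool.Agent.Lib.MP_49fa77_co.H30.Fin
import Pool.Agent.Lib.MP_49fa77_co.H30.Iface3

/-!
# The final theorem, with the exact order of the error term
-/

set_option autoImplicit false

namespace FT58.AS.H30

open Real MeasureTheory Set Metric Filter Relation FT58 FT58.AS

theorem final3 (hFU : FuS) (hLD : LdS) (hF2 : F2S) :
    ∃ A B : ℝ, 0 < A ∧ 0 < B ∧
      (∀ n : ℕ, 1 ≤ n →
        ENNReal.ofReal (1 - (2 * √3 - π) / (3 * √3 / 2 * n) - A * (n : ℝ) ^ (-(7 / 6) : ℝ)) ≤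
          dT (EuclideanSpace ℝ (Fin 2)) n ∧
        dT (EuclideanSpace ℝ (Fin 2)) n ≤
          ENNReal.ofReal (1 - (2 * √3 - π) / (3 * √3 / 2 * n + 4))) ∧
      ∃ N : ℕ, ∀ n : ℕ, N ≤ n →
        dT (EuclideanSpace ℝ (Fin 2)) n ≤
          ENNReal.ofReal (1 - (2 * √3 - π) / (3 * √3 / 2 * n) - B * (n : ℝ) ^ (-(7 / 6) : ℝ)) := by
  obtain ⟨C, hC0, hC⟩ := lower_rate hLD
  obtain ⟨γ, hγ, N₀, _, hN⟩ := hF2
  refine ⟨C + 1, γ, by linarith, hγ, fun n hn => ⟨?_, ?_⟩, N₀, fun n hn => ?_⟩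
  · rw [dT_plane]
    refine le_trans (ENNReal.ofReal_le_ofReal ?_) (hC n hn)
    have h1 : (0 : ℝ) ≤ (n : ℝ) ^ (-(7 / 6) : ℝ) := by positivity
    rw [div_div]
    nlinarith
  · rw [dT_plane]; exact hFU n hn
  · rw [dT_plane]
    refine (hN n hn).trans (le_of_eq ?_)
    unfold Dn
    rw [div_div]

end FT58.AS.H30
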