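import Pool.Agent.Lib.MP_49fa77_co.H30.All2
import Pool.Agent.Lib.MP_49fa77_co.H30.Fin3
import Pool.Agent.Lib.MP_49fa77_co.H02.T2
import Pool.Agent.Lib.MP_49fa77_co.H22.F2
import Pool.Agent.Lib.MP_49fa77_co.H96.Ge
import Pool.Agent.Lib.MP_49fa77_co.H06.C2
import Pool.Agent.Lib.MP_49fa77_co.H31.Lv
import Pool.Agent.Lib.MP_49fa77_co.H23.La
import Pool.Agent.Lib.MP_49fa77_co.H20.Cu
import Pool.Agent.Lib.MP_49fa77_co.H18.Ra
import Pool.Agent.Lib.MP_49fa77_co.H67.GS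
import Pool.Agent.Lib.MP_49fa77_co.H70.U3
import Pool.Agent.Lib.MP_49fa77_co.H70.NM

/-!
# Assembly of the third part
-/

set_option autoImplicit false

namespace FT58.AS.H30

open Real MeasureTheory Set FT58 FT58.AS

theorem geF : GeS :=
  H96.ge_st (H06.c2_st H05.sp_st di tbF H31.lv_st) H23.la_st ctF

theorem t2F : T2S :=
  H02.t2_st rg_all H18.ra_st H20.cu_st H67.gs_st H70.nm_st ctF clF geF

theorem f2F : F2S := H22.f2_st t2F (H70.u3_st di)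

theorem asymptotics :
    ∃ A B : ℝ, 0 < A ∧ 0 < B ∧
      (∀ n : ℕ, 1 ≤ n →
        ENNReal.ofReal (1 - (2 * √3 - π) / (3 * √3 / 2 * n) - A * (n : ℝ) ^ (-(7 / 6) : ℝ)) ≤
          dT (EuclideanSpace ℝ (Fin 2)) n ∧
        dT (EuclideanSpace ℝ (Fin 2)) n ≤
          ENNReal.ofReal (1 - (2 * √3 - π) / (3 * √3 / 2 * n + 4))) ∧
      ∃ N : ℕ, ∀ n : ℕ, N ≤ n →
        dT (EuclideanSpace ℝ (Fin 2)) n ≤
          ENNReal.ofReal (1 - (2 * √3 - π) / (3 * √3 / 2 * n) - B * (n : ℝ) ^ (-(7 / 6) : ℝ)) :=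
  final3 fuF ld_all f2F

end FT58.AS.H30
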