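import Pool.Agent.Lib.MP_49fa77_co.H30.Tb
import Pool.Agent.Lib.MP_49fa77_co.Bnd
import Pool.Agent.Lib.MP_49fa77_co.Disch2

/-!
# Collinear unions and tree-like unions: the core inequality
-/

set_option autoImplicit false

namespace FT58.AS.H30

open Real MeasureTheory Set Metric Filter Relation FT58 FT58.AS

section
open Classical

/-- From the maximal region to a region without bad boundary triangles. -/
theorem reduce {D : ℝ} (hD : 0 ≤ D) {S : Finset ℂ} (hG : Gen S) :
    ∃ E T, St S S E T ∧ FV D S S E T ≤ sE S (Eg S) (val2 D S) ∧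
      3 * nE S (fun c q => E c q ∧ ¬ Lf T c q) + nE S (Lf T)
        = 3 * nE S (fun c q => Se S c q ∧ ¬ Lf (MX S S) c q) + nE S (Lf (MX S S)) ∧
      (∀ c q r, T c q r → ¬ Lf T q c → ¬ Bad c q r) := by
  have hR := MX_Rg S S
  have hst : St S S (Se S) (MX S S) := by
    refine ⟨hR.toFam, fun c q r h => hR.tr _ _ _ h, ?_, ?_, ?_, ?_⟩
    · intro c q r h
      rcases hR.bd _ _ _ h with h' | h'
      · exact Or.inl h'
      · exact Or.inr h'.2
    · intro c q r h hs
      have := hR.tr _ _ _ h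
      exact ⟨(Tr_ne this).1, Tr_Ed this, hs⟩
    · intro c q h; exact Se_symm h
    · intro c q h; exact h
  have hFV : sE S (Eg S) (asg2 D S (MX S S)) = FV D S S (Se S) (MX S S) := by
    unfold FV
    rw [sE_split (X := Eg S) (Y := Lf (MX S S))]
    congr 1
    · apply sE_congr
      · intro c _ q _
        constructor
        · exact fun h => h.2
        · rintro ⟨r, hr⟩
          have := hR.tr _ _ _ hr
          exact ⟨⟨(Tr_ne this).1, Tr_Ed this⟩, r, hr⟩
      · intro c _ q _ h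
        unfold asg2
        rw [if_pos h.2]
    · unfold sE
      refine Finset.sum_congr rfl fun c _ => Finset.sum_congr rfl fun q _ => ?_
      by_cases h1 : Lf (MX S S) c q
      · rw [if_neg (fun h => h.2 h1), if_neg (fun h => h.2 h1)]
      · by_cases h2 : Eg S c q
        · rw [if_pos ⟨h2, h1⟩]
          unfold asg2 gv gs
          rw [if_neg h1]
          by_cases h3 : Sh c q
          · rw [if_pos h3, if_pos ⟨⟨h2.1, h2.2, h3⟩, h1⟩]
          · rw [if_neg h3, if_neg (fun h => h3 h.1.2.2)]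
        · rw [if_neg (fun h => h2 h.1), if_neg (fun h => h2 ⟨h.1.1, h.1.2.1⟩)]
  obtain ⟨E, T, h1, h2, h3, h4⟩ := cut_all (D := D) hD (nE S (Lf (MX S S))) (Se S) (MX S S) hst rfl
  refine ⟨E, T, h1, h2.trans ?_, h3, h4⟩
  rw [← hFV]
  exact asg2_le hD hG hR.toFam fun c q r hT s1 s2 s3 =>
    MX_short (Finset.Subset.refl S) hT hT.1 hT.2.1 hT.2.2.1 s1 s2 s3

lemma cr_add_left (x y z : ℂ) : cr (x + y) z = cr x z + cr y z := by
  simp only [cr, Complex.add_re, Complex.add_im]; ring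

lemma cr_add_right (x y z : ℂ) : cr x (y + z) = cr x y + cr x z := by
  simp only [cr, Complex.add_re, Complex.add_im]; ring

lemma abs_cr_le (x y : ℂ) : |cr x y| ≤ ‖x‖ * ‖y‖ := by
  have h1 : cr x y ^ 2 ≤ (‖x‖ * ‖y‖) ^ 2 := by
    rw [mul_pow, norm_sq_eq, norm_sq_eq]
    simp only [cr]
    nlinarith [sq_nonneg (x.re * y.re + x.im * y.im)]
  exact abs_le_of_sq_le_sq h1 (by positivity)

/-- sums of differences over a boundary vanish -/
lemma sE_grad {S : Finset ℂ} {T : ℂ → ℂ → ℂ → Prop} (hT : Fam S T) (g : ℂ → ℝ) :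
    sE S (Bd T) (fun x y => g y - g x) = 0 := by
  rw [sE_sub (P := S) (X := Bd T) (fun x y => g y) (fun x y => g x)]
  have h1 : sE S (Bd T) (fun x y => g x) = ∑ c ∈ S, g c * ∑ q ∈ S, (if Bd T c q then (1 : ℝ) else 0) := by
    unfold sE
    refine Finset.sum_congr rfl fun c _ => ?_
    rw [Finset.mul_sum]
    refine Finset.sum_congr rfl fun q _ => ?_
    split_ifs <;> simp
  have h2 : sE S (Bd T) (fun x y => g y) = ∑ c ∈ S, g c * ∑ q ∈ S, (if Bd T q c then (1 : ℝ) else 0) := by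
    unfold sE
    rw [Finset.sum_comm]
    refine Finset.sum_congr rfl fun c _ => ?_
    rw [Finset.mul_sum]
    refine Finset.sum_congr rfl fun q _ => ?_
    split_ifs <;> simp
  rw [h1, h2, sub_eq_zero]
  refine Finset.sum_congr rfl fun c hc => ?_
  rw [deg_eq hT hc]

/-- The overlap graph of `c` spans no area. -/
def Flat {n : ℕ} (c : Fin n → ℂ) : Prop :=
  ∀ φ : Fin n → Fin n → ℝ, (∀ i j, φ i j ≠ 0 → ‖c i - c j‖ < 2) →
    (∀ i, ∑ j, φ i j = ∑ j, φ j i) → ∑ i, ∑ j, φ i j * cr (c i) (c j) = 0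

lemma cr_expand (o a b x y : ℂ) (hx : x = o + a) (hy : y = o + b) :
    cr x y = cr a b + (cr o y - cr o x) := by
  subst hx hy
  simp only [cr, Complex.add_re, Complex.add_im]; ring

/-- the area of a region of a flat configuration is small -/
theorem area_small {n : ℕ} {c : Fin n → ℂ} (hc : Flat c) {δ : ℝ} {e : ℂ} {S : Finset ℂ}
    {cl : ℂ → ℂ} {p : ℂ → Fin n → ℂ} {t : ℂ → ℂ} (h : Lb c δ e S cl p t)
    {T : ℂ → ℂ → ℂ → Prop} (hT : Fam S T) (hbd : ∀ c q, Bd T c q → Sh c q) {B : ℝ}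
    (hB : ∀ i, ‖c i‖ ≤ B) :
    sE S (Bd T) cr ≤ (S.image cl).card * ((n : ℝ) ^ 2 * (2 * B * δ + δ ^ 2)) := by
  have hcl : ∀ x ∈ S, ∀ y ∈ S, Bd T x y → cl x = cl y := by
    intro x hx y hy hb
    by_contra hne
    have h1 := h.sep x hx y hy hne
    have h2 := hbd x y hb
    unfold Sh at h2
    linarith
  -- remove the gradient part
  have e1 : sE S (Bd T) cr = sE S (Bd T) (fun x y => cr (x - t (cl x)) (y - t (cl x))) := by
    have e2 := sE_grad hT (fun z => cr (t (cl z)) z)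
    have e3 : sE S (Bd T) cr = sE S (Bd T) (fun x y => cr (x - t (cl x)) (y - t (cl x))
        + (cr (t (cl y)) y - cr (t (cl x)) x)) := by
      apply sE_congr (fun c _ q _ => Iff.rfl)
      intro x hx y hy hb
      have h3 := hcl x hx y hy hb
      rw [← h3]
      exact cr_expand (t (cl x)) (x - t (cl x)) (y - t (cl x)) x y (by ring) (by ring)
    rw [e3, sE_add, e2, add_zero]
  rw [e1, sE_clusters (cl := cl) (Q := fun j => S.filter (fun y => cl y = j))
    (fun j x => by rw [Finset.mem_filter]) (fun x hx y hy hb hne => absurd (hcl x hx y hy hb) hne)]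
  rw [← nsmul_eq_mul]
  refine Finset.sum_le_card_nsmul _ _ _ fun v hv => ?_
  obtain ⟨x₀, hx₀, rfl⟩ := Finset.mem_image.mp hv
  set v := cl x₀ with hvdef
  have hpS : ∀ i, p v i ∈ S ∧ cl (p v i) = v := fun i => (h.mem x₀ hx₀ _).mpr ⟨i, rfl⟩
  have hQ : S.filter (fun y => cl y = v) = Finset.univ.image (p v) := by
    ext y
    rw [Finset.mem_filter, h.mem x₀ hx₀ y, Finset.mem_image]
    constructor
    · rintro ⟨i, hi⟩; exact ⟨i, Finset.mem_univ _, hi.symm⟩
    · rintro ⟨i, _, hi⟩; exact ⟨i, hi.symm⟩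
  have hsum : ∀ f : ℂ → ℝ, ∑ x ∈ Finset.univ.image (p v), f x = ∑ i, f (p v i) := by
    intro f
    exact Finset.sum_image fun i _ j _ hij => h.inj x₀ hx₀ hij
  -- the circulation on the indices
  set φ : Fin n → Fin n → ℝ := fun i j => if Bd T (p v i) (p v j) then 1 else 0 with hφ
  have hφs : ∀ i j, φ i j ≠ 0 → ‖c i - c j‖ < 2 := by
    intro i j hij
    have h1 : Bd T (p v i) (p v j) := by
      by_contra hn
      exact hij (by simp only [hφ, if_neg hn])
    have h2 := hbd _ _ h1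
    unfold Sh at h2
    rw [norm_sub_rev] at h2
    exact (h.sh x₀ hx₀ i j).mp h2
  have hout : ∀ x ∈ S, cl x = v → ∑ q ∈ S, (if Bd T x q then (1 : ℝ) else 0)
      = ∑ j, (if Bd T x (p v j) then (1 : ℝ) else 0) := by
    intro x hx hxv
    rw [← hsum (fun q => if Bd T x q then (1 : ℝ) else 0), ← hQ]
    symm
    apply Finset.sum_subset (Finset.filter_subset _ _)
    intro q hq hq'
    rw [if_neg]
    intro hb
    exact hq' (Finset.mem_filter.mpr ⟨hq, by rw [← hcl x hx q hq hb, hxv]⟩)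
  have hinn : ∀ x ∈ S, cl x = v → ∑ q ∈ S, (if Bd T q x then (1 : ℝ) else 0)
      = ∑ j, (if Bd T (p v j) x then (1 : ℝ) else 0) := by
    intro x hx hxv
    rw [← hsum (fun q => if Bd T q x then (1 : ℝ) else 0), ← hQ]
    symm
    apply Finset.sum_subset (Finset.filter_subset _ _)
    intro q hq hq'
    rw [if_neg]
    intro hb
    exact hq' (Finset.mem_filter.mpr ⟨hq, by rw [hcl q hq x hx hb, hxv]⟩)
  have hφ0 : ∀ i, ∑ j, φ i j = ∑ j, φ j i := by
    intro i
    have h1 := deg_eq hT (hpS i).1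
    rw [hout _ (hpS i).1 (hpS i).2, hinn _ (hpS i).1 (hpS i).2] at h1
    exact h1
  have hflat := hc φ hφs hφ0
  have e4 : sE (S.filter (fun y => cl y = v)) (Bd T)
      (fun x y => cr (x - t (cl x)) (y - t (cl x)))
      = ∑ i, ∑ j, φ i j * cr (p v i - t v) (p v j - t v) := by
    unfold sE
    rw [hQ, hsum]
    refine Finset.sum_congr rfl fun i _ => ?_
    rw [hsum]
    refine Finset.sum_congr rfl fun j _ => ?_
    simp only [hφ, (hpS i).2]
    split_ifs <;> simp
  show sE (S.filter (fun y => cl y = v)) (Bd T)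
      (fun x y => cr (x - t (cl x)) (y - t (cl x))) ≤ _
  rw [e4]
  have e5 : ∑ i, ∑ j, φ i j * cr (p v i - t v) (p v j - t v)
      = ∑ i, ∑ j, φ i j * (cr (p v i - t v) (p v j - t v) - cr (c i) (c j)) := by
    have : ∑ i, ∑ j, φ i j * (cr (p v i - t v) (p v j - t v) - cr (c i) (c j))
        = ∑ i, ∑ j, φ i j * cr (p v i - t v) (p v j - t v)
          - ∑ i, ∑ j, φ i j * cr (c i) (c j) := by
      rw [← Finset.sum_sub_distrib]
      refine Finset.sum_congr rfl fun i _ => ?_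
      rw [← Finset.sum_sub_distrib]
      refine Finset.sum_congr rfl fun j _ => ?_
      ring
    rw [this, hflat, sub_zero]
  rw [e5]
  have hδ := h.pos
  have hterm : ∀ i j, φ i j * (cr (p v i - t v) (p v j - t v) - cr (c i) (c j))
      ≤ 2 * B * δ + δ ^ 2 := by
    intro i j
    set a := p v i - t v - c i with ha
    set b := p v j - t v - c j with hb
    have ha1 : ‖a‖ < δ := h.near x₀ hx₀ i
    have hb1 : ‖b‖ < δ := h.near x₀ hx₀ j
    have h1 : cr (p v i - t v) (p v j - t v) - cr (c i) (c j)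
        = cr (c i) b + cr a (c j) + cr a b := by
      have e6 : p v i - t v = c i + a := by rw [ha]; ring
      have e7 : p v j - t v = c j + b := by rw [hb]; ring
      rw [e6, e7, cr_add_left, cr_add_right, cr_add_right]
      ring
    have h2 := abs_le.mp (abs_cr_le (c i) b)
    have h3 := abs_le.mp (abs_cr_le a (c j))
    have h4 := abs_le.mp (abs_cr_le a b)
    have h5 : ‖c i‖ * ‖b‖ ≤ B * δ :=
      mul_le_mul (hB i) hb1.le (norm_nonneg _) ((norm_nonneg _).trans (hB i))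
    have h6 : ‖a‖ * ‖c j‖ ≤ δ * B := mul_le_mul ha1.le (hB j) (norm_nonneg _) hδ.le
    have h7 : ‖a‖ * ‖b‖ ≤ δ * δ := mul_le_mul ha1.le hb1.le (norm_nonneg _) hδ.le
    have h8 : cr (c i) b + cr a (c j) + cr a b ≤ 2 * B * δ + δ ^ 2 := by nlinarith
    have h9 : 0 ≤ 2 * B * δ + δ ^ 2 := by
      have : 0 ≤ B := (norm_nonneg _).trans (hB i)
      positivity
    rw [h1]
    simp only [hφ]
    split_ifs
    · linarith
    · linarith
  calc ∑ i, ∑ j, φ i j * (cr (p v i - t v) (p v j - t v) - cr (c i) (c j))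
      ≤ ∑ _i : Fin n, ∑ _j : Fin n, (2 * B * δ + δ ^ 2) :=
        Finset.sum_le_sum fun i _ => Finset.sum_le_sum fun j _ => hterm i j
    _ = (n : ℝ) ^ 2 * (2 * B * δ + δ ^ 2) := by
        simp only [Finset.sum_const, Finset.card_univ, Fintype.card_fin, nsmul_eq_mul]
        ring

theorem core_flat (hCT : CtS) (hCL : ClS) {n : ℕ} (hn : 2 ≤ n) {D₀ η : ℝ} (h0 : 0 ≤ D₀)
    (hη : 0 < η) (h1 : D₀ + η ≤ 1) (hk : 0 ≤ kap D₀)
    (hM : ∀ a, 0 < a → a < 1 → -(kap D₀ / ((n : ℝ) - 1)) ≤ GG D₀ a) {c : Fin n → ℂ}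
    (hc : Flat c) :
    ∃ δ₀ > 0, ∀ (δ : ℝ) (e : ℂ) (S : Finset ℂ) (cl : ℂ → ℂ) (p : ℂ → Fin n → ℂ) (t : ℂ → ℂ),
      δ < δ₀ → Lb c δ e S cl p t →
        0 ≤ S.card * (2 * kap (D₀ + η)) + sE S (Eg S) (val2 (D₀ + η) S) := by
  set D := D₀ + η with hD
  have hD0 : 0 ≤ D := by linarith
  set B : ℝ := ∑ i, ‖c i‖ with hB
  have hBi : ∀ i, ‖c i‖ ≤ B := fun i => Finset.single_le_sum (f := fun i => ‖c i‖)
    (fun i _ => norm_nonneg _) (Finset.mem_univ i)
  have hB0 : 0 ≤ B := Finset.sum_nonneg fun i _ => norm_nonneg _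
  have hn0 : (0 : ℝ) < n := by exact_mod_cast (by omega : 0 < n)
  have hn1 : (0 : ℝ) < (n : ℝ) - 1 := by
    have : (2 : ℝ) ≤ n := by exact_mod_cast hn
    linarith
  refine ⟨min 1 (η / ((n : ℝ) ^ 2 * (2 * B + 1))), by positivity, ?_⟩
  intro δ e S cl p t hδ0 h
  have hδ := h.pos
  have hδ1 : δ ≤ 1 := (hδ0.trans_le (min_le_left _ _)).le
  have hδ2 : (n : ℝ) ^ 2 * (2 * B * δ + δ ^ 2) ≤ η := by
    have h2 : δ ≤ η / ((n : ℝ) ^ 2 * (2 * B + 1)) := (hδ0.trans_le (min_le_right _ _)).le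
    rw [le_div_iff₀ (by positivity)] at h2
    have h3 : 2 * B * δ + δ ^ 2 ≤ (2 * B + 1) * δ := by nlinarith
    have h4 : (n : ℝ) ^ 2 * (2 * B * δ + δ ^ 2) ≤ (n : ℝ) ^ 2 * ((2 * B + 1) * δ) := by
      gcongr
    linarith
  obtain ⟨E, T, hst, hFV, hcnt, hgood⟩ := reduce hD0 h.gen
  obtain ⟨J, hJS, hJc, hJ⟩ := hCL n c δ e S cl p t h
  have hct := hCT S h.gen h.ne J hJS hJ
  have hrb := region_bound hD0 h1 hst.fam hst.trS hst.bd hgood
  have hbd : ∀ c q, Bd T c q → Sh c q := by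
    rintro c q ⟨⟨r, hr⟩, hn⟩
    exact (hst.bd _ _ _ hr).resolve_left hn
  have harea := area_small hc h hst.fam hbd hBi
  -- the number of clusters
  have hcard : (S.image cl).card = J.card := by
    have h2 := card_clusters (S := S) (cl := cl) (Q := fun j => S.filter (fun y => cl y = j))
      (fun j x => by rw [Finset.mem_filter])
    have h3 : ∀ v ∈ S.image cl, (S.filter (fun y => cl y = v)).card = n := by
      intro v hv
      obtain ⟨x₀, hx₀, rfl⟩ := Finset.mem_image.mp hv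
      have hQ : S.filter (fun y => cl y = cl x₀) = Finset.univ.image (p (cl x₀)) := by
        ext y
        rw [Finset.mem_filter, h.mem x₀ hx₀ y, Finset.mem_image]
        constructor
        · rintro ⟨i, hi⟩; exact ⟨i, Finset.mem_univ _, hi.symm⟩
        · rintro ⟨i, _, hi⟩; exact ⟨i, hi.symm⟩
      rw [hQ, Finset.card_image_of_injective _ (h.inj x₀ hx₀)]
      simp
    rw [Finset.sum_congr rfl h3, Finset.sum_const, smul_eq_mul] at h2
    have h4 : n * (S.image cl).card = n * J.card := by rw [hJc, h2, mul_comm]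
    exact Nat.eq_of_mul_eq_mul_left (by omega) h4
  -- outer edges
  have hout : -(kap D + kap D₀ / ((n : ℝ) - 1)) * nE S (fun c q => E c q ∧ ¬ Lf T c q)
      ≤ sE S (fun c q => E c q ∧ ¬ Lf T c q) (gs D) := by
    rw [← sE_const]
    apply sE_mono
    intro x _ y _ hxy
    have hSe := hst.se _ _ hxy.1
    have ha0 : 0 < ‖y - x‖ / 2 := by
      have : y - x ≠ 0 := sub_ne_zero.mpr (Ne.symm hSe.1)
      have := norm_pos_iff.mpr this
      linarith
    have ha1 : ‖y - x‖ / 2 < 1 := by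
      have := hSe.2.2
      unfold Sh at this
      linarith
    have h2 := hM _ ha0 ha1
    have h3 : GG D₀ (‖y - x‖ / 2) ≤ GG D (‖y - x‖ / 2) := by
      unfold GG
      have := Ar_nonneg ha0.le
      nlinarith
    unfold gs
    rw [gg_eq]
    linarith
  have hkD : kap D = kap D₀ + √3 * η := by rw [hD]; unfold kap; ring
  have hcnt' : (3 : ℝ) * nE S (fun c q => E c q ∧ ¬ Lf T c q) + nE S (Lf T)
        = 3 * nE S (fun c q => Se S c q ∧ ¬ Lf (MX S S) c q) + nE S (Lf (MX S S)) := by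
    exact_mod_cast hcnt
  set no : ℝ := (nE S (fun c q => E c q ∧ ¬ Lf T c q) : ℝ) with hno
  set ni : ℝ := (nE S (Lf T) : ℝ) with hni
  have hni0 : 0 ≤ ni := Nat.cast_nonneg _
  have hno0 : 0 ≤ no := Nat.cast_nonneg _
  have hScard : (S.card : ℝ) = n * J.card := by exact_mod_cast hJc.symm
  set m : ℝ := (J.card : ℝ) with hm
  have hm0 : 0 ≤ m := Nat.cast_nonneg _
  have hcount : no + ni / 3 ≤ 2 * (n * m) - 2 * m := by
    rw [hScard] at hct
    linarith
  have hno1 : no ≤ 2 * m * ((n : ℝ) - 1) := by nlinarith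
  have hq : kap D₀ / ((n : ℝ) - 1) * no ≤ 2 * m * kap D₀ := by
    have h2 : kap D₀ / ((n : ℝ) - 1) * no ≤ kap D₀ / ((n : ℝ) - 1) * (2 * m * ((n : ℝ) - 1)) := by
      gcongr
    have h3 : kap D₀ / ((n : ℝ) - 1) * (2 * m * ((n : ℝ) - 1)) = 2 * m * kap D₀ := by
      field_simp
    linarith
  have harea' : sE S (Bd T) cr ≤ m * η := by
    rw [hcard] at harea
    refine harea.trans ?_
    gcongr
  have hs3 : (1.73205 : ℝ) < √3 := sqrt3_gt
  have hfv : sE S (Lf T) (val2 D S) + sE S (fun c q => E c q ∧ ¬ Lf T c q) (gs D)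
      ≤ sE S (Eg S) (val2 D S) := hFV
  have hkD0 : 0 ≤ kap D := by rw [hkD]; positivity
  have harea2 : (1 - D) * (sE S (Bd T) cr / 2) ≤ m * η := by
    have h2 : (1 - D) * (sE S (Bd T) cr / 2) ≤ (1 - D) * (m * η / 2) := by
      apply mul_le_mul_of_nonneg_left _ (by linarith)
      linarith
    have h3 : (1 - D) * (m * η / 2) ≤ 1 * (m * η / 2) := by
      apply mul_le_mul_of_nonneg_right _ (by positivity)
      linarith
    have h4 : 0 ≤ m * η := by positivity
    linarith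
  have hk1 : kap D * (no + ni / 3) ≤ kap D * (2 * (n * m) - 2 * m) := by gcongr
  rw [hScard]
  have h5 : 0 ≤ m * η * (2 * √3 - 1) := by
    apply mul_nonneg (by positivity)
    linarith
  have h6 : 2 * m * (kap D - kap D₀) = 2 * √3 * (m * η) := by rw [hkD]; ring
  nlinarith

end

end FT58.AS.H30
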