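import Pool.Agent.Lib.MP_49fa77_co.H30.Chn

/-!
# Collinear and tree-like unions are flat
-/

set_option autoImplicit false

namespace FT58.AS.H30

open Real MeasureTheory Set Metric Filter Relation FT58 FT58.AS

/-- The overlap graph of the unit disks centred at `c 0, …, c (n-1)`: two disks are joined if
their centres have distance less than `2`. -/
def overlapGraph {E : Type*} [PseudoMetricSpace E] {n : ℕ} (c : Fin n → E) :
    SimpleGraph (Fin n) where
  Adj i j := i ≠ j ∧ dist (c i) (c j) < 2
  symm := ⟨fun i j h => ⟨h.1.symm, by rw [dist_comm]; exact h.2⟩⟩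
  loopless := ⟨fun i h => h.1 rfl⟩

lemma cr_anti (x y : ℂ) : cr y x = -cr x y := by
  simp only [cr]; ring

/-- a circulation on a forest vanishes -/
lemma circ_forest {n : ℕ} (G : SimpleGraph (Fin n)) (hG : G.IsAcyclic) (ψ : Fin n → Fin n → ℝ)
    (ha : ∀ i j, ψ j i = -ψ i j) (hs : ∀ i j, ψ i j ≠ 0 → G.Adj i j)
    (h0 : ∀ i, ∑ j, ψ i j = 0) (i j : Fin n) : ψ i j = 0 := by
  classical
  by_contra hne
  have hadj := hs i j hne
  have hb : G.IsBridge s(i, j) := by
    rw [SimpleGraph.isAcyclic_iff_forall_edge_isBridge] at hG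
    exact hG ((SimpleGraph.mem_edgeSet G).mpr hadj)
  rw [SimpleGraph.isBridge_iff] at hb
  have hb2 := hb
  set H := G \ SimpleGraph.fromEdgeSet {s(i, j)} with hH
  set A : Finset (Fin n) := Finset.univ.filter (fun x => H.Reachable i x) with hA
  have hi : i ∈ A := by simp [hA]
  have hj : j ∉ A := by
    simp only [hA, Finset.mem_filter, Finset.mem_univ, true_and]
    exact hb2
  have key : ∀ x ∈ A, ∀ y, y ∉ A → ψ x y ≠ 0 → x = i ∧ y = j := by
    intro x hx y hy hxy
    have h1 := hs x y hxy
    have hx' : H.Reachable i x := by simpa [hA] using hx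
    have hy' : ¬ H.Reachable i y := by simpa [hA] using hy
    have h2 : ¬ H.Adj x y := fun h => hy' (hx'.trans h.reachable)
    have h3 : s(x, y) = s(i, j) := by
      by_contra hn
      apply h2
      rw [hH, SimpleGraph.sdiff_adj, SimpleGraph.fromEdgeSet_adj]
      exact ⟨h1, fun h => hn h.1⟩
    rw [Sym2.eq_iff] at h3
    rcases h3 with h3 | ⟨h3, h4⟩
    · exact h3
    · exact absurd (h4 ▸ hi) hy
  have hsum : ∑ x ∈ A, ∑ y, ψ x y = 0 := Finset.sum_eq_zero fun x _ => h0 x
  have hsplit : ∑ x ∈ A, ∑ y, ψ x y = ∑ x ∈ A, ∑ y ∈ A, ψ x y + ∑ x ∈ A, ∑ y ∈ Aᶜ, ψ x y := by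
    rw [← Finset.sum_add_distrib]
    refine Finset.sum_congr rfl fun x _ => ?_
    rw [Finset.sum_add_sum_compl]
  have hin : ∑ x ∈ A, ∑ y ∈ A, ψ x y = 0 := by
    have h1 : ∑ x ∈ A, ∑ y ∈ A, ψ x y = ∑ x ∈ A, ∑ y ∈ A, ψ y x := Finset.sum_comm
    have h2 : ∑ x ∈ A, ∑ y ∈ A, ψ y x = -∑ x ∈ A, ∑ y ∈ A, ψ x y := by
      rw [← Finset.sum_neg_distrib]
      refine Finset.sum_congr rfl fun x _ => ?_
      rw [← Finset.sum_neg_distrib]
      exact Finset.sum_congr rfl fun y _ => ha x y
    linarith
  have hcross : ∑ x ∈ A, ∑ y ∈ Aᶜ, ψ x y = ψ i j := by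
    rw [Finset.sum_eq_single i]
    · rw [Finset.sum_eq_single j]
      · intro y hy hyj
        by_contra hn
        exact hyj (key i hi y (Finset.mem_compl.mp hy) hn).2
      · intro h
        exact absurd (Finset.mem_compl.mpr hj) h
    · intro x hx hxi
      refine Finset.sum_eq_zero fun y hy => ?_
      by_contra hn
      exact hxi (key x hx y (Finset.mem_compl.mp hy) hn).1
    · intro h
      exact absurd hi h
  rw [hsum, hin, hcross] at hsplit
  exact hne (by linarith)

theorem flat_forest {n : ℕ} (c : Fin n → ℂ) (h : (overlapGraph c).IsAcyclic) : Flat c := by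
  intro φ hs h0
  have h1 := circ_forest (overlapGraph c) h (fun i j => if i = j then 0 else φ i j - φ j i)
    (fun i j => by
      by_cases hij : i = j
      · simp [hij]
      · simp only [if_neg hij, if_neg (Ne.symm hij)]; ring)
    (fun i j hne => by
      by_cases hij : i = j
      · simp [hij] at hne
      · simp only [if_neg hij] at hne
        refine ⟨hij, ?_⟩
        rw [dist_eq_norm]
        by_cases h2 : φ i j = 0
        · have h3 : φ j i ≠ 0 := by
            intro h3
            rw [h2, h3] at hne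
            exact hne (sub_zero 0)
          rw [norm_sub_rev]
          exact hs j i h3
        · exact hs i j h2)
    (fun i => by
      have : ∀ j, (if i = j then (0 : ℝ) else φ i j - φ j i) = φ i j - φ j i := by
        intro j
        by_cases hij : i = j
        · subst hij; simp
        · rw [if_neg hij]
      simp only [this, Finset.sum_sub_distrib, h0 i, sub_self])
  have h2 : ∀ i j, φ i j = φ j i := by
    intro i j
    by_cases hij : i = j
    · rw [hij]
    · have := h1 i j
      simp only [if_neg hij] at this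
      linarith
  have h3 : ∑ i, ∑ j, φ i j * cr (c i) (c j) = -∑ i, ∑ j, φ i j * cr (c i) (c j) := by
    conv_lhs => rw [Finset.sum_comm]
    rw [← Finset.sum_neg_distrib]
    refine Finset.sum_congr rfl fun i _ => ?_
    rw [← Finset.sum_neg_distrib]
    refine Finset.sum_congr rfl fun j _ => ?_
    rw [h2 j i, cr_anti]
    ring
  linarith

theorem flat_collinear {n : ℕ} (c : Fin n → ℂ) (p u : ℂ) (x : Fin n → ℝ)
    (h : ∀ i, c i = p + (x i : ℂ) * u) : Flat c := by
  intro φ _ h0
  -- cr (c i) (c j) = x j * cr p u - x i * cr p u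
  have h1 : ∀ i j, cr (c i) (c j) = x j * cr p u - x i * cr p u := by
    intro i j
    rw [h i, h j]
    simp only [cr, Complex.add_re, Complex.add_im, Complex.mul_re, Complex.mul_im,
      Complex.ofReal_re, Complex.ofReal_im]
    ring
  simp only [h1, mul_sub, Finset.sum_sub_distrib]
  have h2 : ∑ i, ∑ j, φ i j * (x j * cr p u) = ∑ j, (∑ i, φ i j) * (x j * cr p u) := by
    rw [Finset.sum_comm]
    exact Finset.sum_congr rfl fun j _ => by rw [Finset.sum_mul]
  have h3 : ∑ i, ∑ j, φ i j * (x i * cr p u) = ∑ i, (∑ j, φ i j) * (x i * cr p u) :=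
    Finset.sum_congr rfl fun i _ => by rw [Finset.sum_mul]
  rw [h2, h3, sub_eq_zero]
  exact Finset.sum_congr rfl fun i _ => by rw [h0 i]

end FT58.AS.H30
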