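import Pool.Agent.Lib.MP_49fa77_co.Union5
import Pool.Agent.Lib.MP_49fa77_co.Lower
import Pool.Agent.Lib.MP_49fa77_co.Main

/-!
# Asymptotics of `d_T(n)`: definitions and the interface

Every `...S` below is a statement, proved in one module.  Paper proofs: `Paper.md`.
-/

set_option autoImplicit false

namespace FT58.AS

open Real MeasureTheory Set Metric Filter Relation FT58

/-! ## Definitions -/

/-- Short Delaunay edges with both ends in `S`. -/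
def Hs (S : Finset ℂ) (c q : ℂ) : Prop := c ∈ S ∧ q ∈ S ∧ Se S c q

/-- The edges of the complex: short Delaunay edges and edges of the maximal region. -/
def Hg (S : Finset ℂ) (c q : ℂ) : Prop :=
  c ∈ S ∧ q ∈ S ∧ (Se S c q ∨ Lf (MX S S) c q ∨ Lf (MX S S) q c)

/-- No boundary edge of the family `F` at the vertex `y`. -/
def Clo (F : ℂ → ℂ → ℂ → Prop) (y : ℂ) : Prop := ∀ q, Lf F y q ↔ Lf F q y

open Classical in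
/-- The weight of the triangle of the family `N` on the left of `c → q`. -/
noncomputable def bw (S : Finset ℂ) (N : ℂ → ℂ → ℂ → Prop) (w : ℂ → ℂ → ℂ → ℝ) (c q : ℂ) : ℝ :=
  ∑ r ∈ S, if N c q r then w c q r else 0

/-- Configurations close to a dilated union of translates of `c`, with labelled points; the
translation vectors `t j` have well separated levels in the direction `e`. -/
structure Lb {n : ℕ} (c : Fin n → ℂ) (δ : ℝ) (e : ℂ) (S : Finset ℂ) (cl : ℂ → ℂ)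
    (p : ℂ → Fin n → ℂ) (t : ℂ → ℂ) : Prop where
  gen : Gen S
  ne : S.Nonempty
  pos : 0 < δ
  sep : ∀ x ∈ S, ∀ y ∈ S, cl x ≠ cl y → 2 ≤ ‖y - x‖
  mem : ∀ x ∈ S, ∀ y, (y ∈ S ∧ cl y = cl x) ↔ ∃ i, y = p (cl x) i
  inj : ∀ x ∈ S, Function.Injective (p (cl x))
  near : ∀ x ∈ S, ∀ i, ‖p (cl x) i - t (cl x) - c i‖ < δ
  sh : ∀ x ∈ S, ∀ i j, ‖p (cl x) i - p (cl x) j‖ < 2 ↔ ‖c i - c j‖ < 2
  dir : ∀ x ∈ S, ∀ y ∈ S, cl x ≠ cl y → 8 * δ * ‖e‖ < |dt (t (cl x) - t (cl y)) e|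

/-- `D a ω ↦ D M(4/3) - M(1)`. -/
noncomputable def Hh (D a ω : ℝ) : ℝ := D * Mi a (4 / 3) ω - Mi a 1 ω

/-- The linear function of the charges. -/
noncomputable def Lc (ω : ℝ) : ℝ := √3 / 4 + (ω - π / 6) / 2

/-- The loss per triangle. -/
noncomputable def Al (D : ℝ) : ℝ := 3 * √3 / 4 * (1 - D) + 12 * (1 - D) ^ 2

/-! ## Part G: graphs and planar combinatorics -/

/-- GA: the Delaunay graph is connected. -/
def GaS : Prop :=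
  ∀ (S : Finset ℂ) (A : ℂ → Prop), (∃ x ∈ S, A x) → (∃ y ∈ S, ¬ A y) →
    ∃ c ∈ S, ∃ q ∈ S, A c ∧ ¬ A q ∧ Eg S c q

/-- SP: short distances are realised by paths of short Delaunay edges. -/
def SpS : Prop :=
  ∀ (S : Finset ℂ), ∀ x ∈ S, ∀ y ∈ S, Sh x y → ReflTransGen (Hs S) x y

/-- FA: an extreme vertex of a family of Delaunay triangles has a boundary edge. -/
def FaS : Prop :=
  ∀ (S : Finset ℂ) (F : ℂ → ℂ → ℂ → Prop), Gen S → Fam S F → ∀ y q₀, Lf F y q₀ → ∀ e : ℂ,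
    (∀ q, Lf F y q → dt (q - y) e < 0) → ¬ Clo F y

/-- FB: at a vertex without boundary edges all Delaunay edges belong to the family. -/
def FbS : Prop :=
  ∀ (S : Finset ℂ) (F : ℂ → ℂ → ℂ → Prop), Gen S → Fam S F → ∀ y, Clo F y → ∀ q₀, Lf F y q₀ →
    ∀ z ∈ S, Eg S y z → Lf F y z

/-- DI: generic directions. -/
def DiS : Prop :=
  ∀ (S : Finset ℂ) (e₀ : ℂ) (η : ℝ), 0 < η →
    ∃ e : ℂ, ‖e - e₀‖ < η ∧ ∀ x ∈ S, ∀ y ∈ S, x ≠ y → dt (x - y) e ≠ 0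

/-- EX: every nonempty family of Delaunay triangles has a boundary edge. -/
def ExS : Prop :=
  ∀ (S : Finset ℂ) (Y : ℂ → ℂ → ℂ → Prop), Gen S → Fam S Y → (∃ c q r, Y c q r) →
    ∃ c q r, Y c q r ∧ ¬ Lf Y q c

/-- PE: peeling. -/
def PeS : Prop :=
  ∀ (S : Finset ℂ) (R : ℂ → ℂ → Prop) (N : ℂ → ℂ → ℂ → Prop), (∀ c q, R c q → R q c) →
    Fam S N →
    (∀ Y : ℂ → ℂ → ℂ → Prop, Fam S Y → (∀ c q r, Y c q r → N c q r) → (∃ c q r, Y c q r) →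
      ∃ c q r, Y c q r ∧ ¬ Lf Y q c ∧ R c q) →
    ∃ X : ℂ → ℂ → Prop, (∀ c q, X c q → X q c) ∧
      (∀ c q, X c q → R c q ∧ (Lf N c q ∨ Lf N q c)) ∧
      3 * nE S X = 2 * nE S (Lf N) ∧
      (∀ G : ℂ → ℂ → Prop, (∀ c q, G c q → G q c) → (∀ c q, Lf N c q → G c q) →
        ∀ x y, ReflTransGen G x y → ReflTransGen (fun c q => G c q ∧ ¬ X c q) x y) ∧
      ∀ φ : ℂ → ℂ → ℝ, (∀ c q, φ q c = -φ c q) → ∃ w : ℂ → ℂ → ℂ → ℝ,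
        (∀ c q r, w q r c = w c q r) ∧ ∀ c q, X c q → φ c q = bw S N w c q - bw S N w q c

/-- TR: a circulation on a tree vanishes. -/
def TrS : Prop :=
  ∀ (S : Finset ℂ) (K : ℂ → ℂ → Prop), (∀ c q, K c q → K q c) → (∀ c, ¬ K c c) →
    (∀ x ∈ S, ∀ y ∈ S, ReflTransGen (fun c q => c ∈ S ∧ q ∈ S ∧ K c q) x y) →
    nE S K + 2 ≤ 2 * S.card →
    ∀ φ : ℂ → ℂ → ℝ, (∀ c q, φ q c = -φ c q) → (∀ c ∈ S, ∀ q ∈ S, φ c q ≠ 0 → K c q) →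
      (∀ c ∈ S, ∑ q ∈ S, φ c q = 0) → ∀ c ∈ S, ∀ q ∈ S, φ c q = 0

/-- CC: counting components. -/
def CcS : Prop :=
  ∀ (S : Finset ℂ) (H Q : ℂ → ℂ → Prop), (∀ c q, H c q → H q c) → (∀ c q, Q c q → Q q c) →
    (∀ x ∈ S, ∀ y ∈ S, ReflTransGen (fun c q => c ∈ S ∧ q ∈ S ∧ (H c q ∨ Q c q)) x y) →
    ∀ J : Finset ℂ, J ⊆ S →
      (∀ a ∈ J, ∀ b ∈ J, a ≠ b →
        ¬ ReflTransGen (fun c q => c ∈ S ∧ q ∈ S ∧ H c q) a b) →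
      2 * J.card ≤ nE S Q + 2

/-- HO: circulations on the Delaunay graph are boundaries. -/
def HoS : Prop :=
  ∀ (S : Finset ℂ), Gen S → S.Nonempty → ∀ φ : ℂ → ℂ → ℝ, (∀ c q, φ q c = -φ c q) →
    (∀ c ∈ S, ∀ q ∈ S, φ c q ≠ 0 → Eg S c q) → (∀ c ∈ S, ∑ q ∈ S, φ c q = 0) →
    ∃ w : ℂ → ℂ → ℂ → ℝ, (∀ c q r, w q r c = w c q r) ∧
      ∀ c ∈ S, ∀ q ∈ S, φ c q = bw S (Tr S) w c q - bw S (Tr S) w q c

/-- TB: the top and the bottom of a component of the complex lie in one component of the graph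
of short edges. -/
def TbS : Prop :=
  ∀ (S : Finset ℂ), Gen S → ∀ e : ℂ, (∀ x ∈ S, ∀ y ∈ S, x ≠ y → dt (x - y) e ≠ 0) →
    ∀ u ∈ S, ∀ d ∈ S, ReflTransGen (Hg S) u d →
      (∀ z, ReflTransGen (Hg S) u z → dt z e ≤ dt u e) →
      (∀ z, ReflTransGen (Hg S) u z → dt d e ≤ dt z e) → ReflTransGen (Hs S) u d

/-- CT: the count. -/
def CtS : Prop :=
  ∀ (S : Finset ℂ), Gen S → S.Nonempty → ∀ J : Finset ℂ, J ⊆ S →
    (∀ a ∈ J, ∀ b ∈ J, a ≠ b → ¬ ReflTransGen (Hg S) a b) →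
    (nE S (fun c q => Se S c q ∧ ¬ Lf (MX S S) c q) : ℝ) + nE S (Lf (MX S S)) / 3
      + 2 * J.card ≤ 2 * S.card

/-- CL: many components. -/
def ClS : Prop :=
  ∀ (n : ℕ) (c : Fin n → ℂ) (δ : ℝ) (e : ℂ) (S : Finset ℂ) (cl : ℂ → ℂ) (p : ℂ → Fin n → ℂ)
    (t : ℂ → ℂ), Lb c δ e S cl p t →
    ∃ J : Finset ℂ, J ⊆ S ∧ n * J.card = S.card ∧
      ∀ a ∈ J, ∀ b ∈ J, a ≠ b → ¬ ReflTransGen (Hg S) a b

/-! ## Part E: energy -/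

/-- PW: the pointwise inequality. -/
def PwS : Prop :=
  ∀ θ₁ θ : ℝ, 0 ≤ θ₁ → θ₁ ≤ θ → θ < π / 2 →
    1 + (θ ^ 2 - θ₁ ^ 2) ≤ cos θ₁ ^ 2 / cos θ ^ 2

/-- HA: ends with a nonnegative angle. -/
def HaS : Prop :=
  ∀ D a ω : ℝ, 9 / 10 ≤ D → D ≤ 1 → 0 < a → a ≤ 1 → 0 ≤ ω → ω ≤ π / 2 → cos ω ≤ a →
    -(1 - D) * (sin (2 * ω) / 2) - 4 * (1 - D) ^ 2 ≤ Hh D a ω

/-- HB: pairs of ends. -/
def HbS : Prop :=
  ∀ D a β ω : ℝ, 9 / 10 ≤ D → D ≤ 1 → 0 < a → a ≤ 1 → 0 ≤ β → β ≤ ω → ω ≤ π / 2 → β < π / 2 →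
    cos β ≤ a → -(1 - D) * sin (ω - β) - 4 * (1 - D) ^ 2 ≤ Hh D a ω - Hh D a β

/-- HC: the charges. -/
def HcS : Prop :=
  (∀ ω : ℝ, 0 ≤ ω → ω ≤ π / 2 → sin (2 * ω) / 2 ≤ Lc ω) ∧
    (∀ β ω : ℝ, 0 ≤ β → β ≤ ω → ω ≤ π / 2 → sin (ω - β) ≤ Lc (-β) + Lc ω) ∧
    ∀ x y z : ℝ, x + y + z = π / 2 → Lc x + Lc y + Lc z = 3 * √3 / 4

/-- AR: triangles with circumradius at most one. -/
def ArS : Prop :=
  ∀ x y z : ℂ, 0 < XX x y z → RR x y z ≤ 1 → XX x y z / 2 ≤ 3 * √3 / 4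

/-- GO: outer short edges. -/
def GoS : Prop :=
  ∀ D a : ℝ, 9 / 10 ≤ D → D ≤ 1 → 0 < a → a < 1 → -(3 * √3 / 4 * (1 - D)) ≤ GG D a

/-- RG: the value of a region without bad boundary triangles. -/
def RgS : Prop :=
  ∀ (D : ℝ) (S : Finset ℂ) (T : ℂ → ℂ → ℂ → Prop), 9 / 10 ≤ D → D ≤ 1 → Fam S T →
    (∀ c q r, T c q r → Lf T q c ∨ Sh c q) →
    (∀ c q r, T c q r → ¬ Lf T q c → ¬ Bad c q r) →
    -((kap D + Al D) * (nE S (Lf T) / 3)) ≤ sE S (Lf T) (val2 D S)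

/-- TO: the total. -/
def ToS : Prop :=
  ∀ (n : ℕ) (c : Fin n → ℂ) (δ : ℝ) (e : ℂ) (S : Finset ℂ) (cl : ℂ → ℂ) (p : ℂ → Fin n → ℂ)
    (t : ℂ → ℂ), Lb c δ e S cl p t → ∀ D : ℝ, 9 / 10 ≤ D → D ≤ 1 →
      Al D * ((n : ℝ) - 1) ≤ kap D → 0 ≤ S.card * (2 * kap D) + sE S (Eg S) (val2 D S)

/-! ## Part U: the upper bound -/

/-- UN: the union inequality. -/
def UnS : Prop :=
  ∀ (n : ℕ) (c : Fin n → ℂ) (D : ℝ), 1 ≤ n → 0 ≤ D →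
    (∀ (δ : ℝ) (e : ℂ) (S : Finset ℂ) (cl : ℂ → ℂ) (p : ℂ → Fin n → ℂ) (t : ℂ → ℂ),
      Lb c δ e S cl p t → 0 ≤ S.card * (2 * kap D) + sE S (Eg S) (val2 D S)) →
    ∀ T : Finset ℂ, (∀ v ∈ T, ∀ w ∈ T, v ≠ w → ∀ i j, 2 ≤ ‖(c i + v) - (c j + w)‖) →
      volume (⋃ x ∈ T ×ˢ (Finset.univ : Finset (Fin n)), closedBall (c x.2 + x.1) 1)
        ≤ ENNReal.ofReal D * volume (⋃ x ∈ T ×ˢ (Finset.univ : Finset (Fin n)),
          closedBall (c x.2 + x.1) (2 / √3))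

/-- UP: from the union inequality to the density. -/
def UpS : Prop :=
  ∀ (n : ℕ) (D : ℝ), 1 ≤ n → 0 ≤ D →
    (∀ (c : Fin n → ℂ) (T : Finset ℂ),
      (∀ v ∈ T, ∀ w ∈ T, v ≠ w → ∀ i j, 2 ≤ ‖(c i + v) - (c j + w)‖) →
      volume (⋃ x ∈ T ×ˢ (Finset.univ : Finset (Fin n)), closedBall (c x.2 + x.1) 1)
        ≤ ENNReal.ofReal D * volume (⋃ x ∈ T ×ˢ (Finset.univ : Finset (Fin n)),
          closedBall (c x.2 + x.1) (2 / √3))) →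
    dT ℂ n ≤ ENNReal.ofReal D

/-- FU: the upper bound. -/
def FuS : Prop :=
  ∀ n : ℕ, 1 ≤ n →
    dT ℂ n ≤ ENNReal.ofReal (1 - (2 * √3 - π) / (3 * √3 / 2 * n + 4))

/-! ## Part L: the lower bound -/

/-- The unit vector at the angle of 60 degrees. -/
noncomputable def om : ℂ := ⟨1 / 2, √3 / 2⟩

/-- The Minkowski sum with a segment. -/
def Ms (K : Set ℂ) (u : ℂ) : Set ℂ := {z | ∃ x ∈ K, ∃ s : ℝ, 0 ≤ s ∧ s ≤ 1 ∧ z = x + s * u}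

/-- MK: Minkowski sum of a convex body and a segment. -/
def MkS : Prop :=
  ∀ (K : Set ℂ) (u b t : ℂ), IsCompact K → Convex ℝ K → b ∈ K → t ∈ K → cr (t - b) u < 0 →
    IsCompact (Ms K u) ∧ Convex ℝ (Ms K u) ∧
      volume K + ENNReal.ofReal |cr (t - b) u| ≤ volume (Ms K u)

/-- The parallel body of a rhombus. -/
def Bp (ρ p : ℝ) : Set ℂ := Ms (Ms (closedBall 0 ρ) (p * om)) p

/-- ST: the area of the parallel body. -/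
def StS : Prop :=
  ∀ ρ p : ℝ, 0 < ρ → 0 < p →
    ENNReal.ofReal (π * ρ ^ 2 + 4 * ρ * p + √3 / 2 * p ^ 2) ≤ volume (Bp ρ p)

/-- CV: covering the parallel body by unit disks with few centres in the rhombus. -/
def CvS : Prop :=
  ∀ (N M : ℕ) (ρ p : ℝ), 1 ≤ N → 1 ≤ M → 0 < ρ → p = ρ * √3 * N →
    ρ ^ 2 + (p / M) ^ 2 / 4 ≤ 1 →
    ∃ Z : Finset ℂ, Z.Nonempty ∧ Z.card ≤ (N + 1) ^ 2 + 4 * (M + 1) ∧
      (∀ z ∈ Z, ∃ x y : ℝ, 0 ≤ x ∧ x ≤ 1 ∧ 0 ≤ y ∧ y ≤ 1 ∧ z = p * (x + y * om)) ∧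
      ∀ z ∈ Bp ρ p, ∃ y ∈ Z, ‖z - y‖ ≤ 1

/-- The lattice vectors. -/
noncomputable def la (p : ℝ) : ℂ := (p + 4 / √3 : ℝ) - (2 / √3 : ℝ) * om
noncomputable def lb (p : ℝ) : ℂ := -(2 / √3 : ℝ) + (p + 4 / √3 : ℝ) * om

/-- PK: the packing property and the determinant. -/
def PkS : Prop :=
  ∀ p : ℝ, 0 ≤ p →
    (∀ x y : ℝ, |x| ≤ 1 → |y| ≤ 1 → ∀ q : ℤ × ℤ, q ≠ 0 →
      2 ≤ ‖(p : ℂ) * (x + y * om) + lv (la p) (lb p) q‖) ∧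
    (la p).re * (lb p).im - (la p).im * (lb p).re = √3 / 2 * p ^ 2 + 4 * p + 2 * √3

/-- LD: the density of the construction. -/
def LdS : Prop :=
  ∀ (n N M : ℕ) (ρ p : ℝ), 1 ≤ N → 1 ≤ M → 0 < ρ → p = ρ * √3 * N →
    ρ ^ 2 + (p / M) ^ 2 / 4 ≤ 1 → (N + 1) ^ 2 + 4 * (M + 1) ≤ n →
    ENNReal.ofReal ((π * ρ ^ 2 + 4 * ρ * p + √3 / 2 * p ^ 2) /
      (√3 / 2 * p ^ 2 + 4 * p + 2 * √3)) ≤ dT ℂ n

/-- NU: the limit. -/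
def NuS : Prop :=
  Tendsto (fun n : ℕ => (n : ℝ) * (1 - (dT ℂ n).toReal)) atTop
    (nhds ((2 * √3 - π) / (3 * √3 / 2)))

end FT58.AS
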