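import Pool.Agent.Lib.MP_49fa77_co.H30.Iface

/-!
# The lower bound for `d_T(n)` with an error term
-/

set_option autoImplicit false

namespace FT58.AS.H30

open Real MeasureTheory Set Metric Filter Relation FT58 FT58.AS

lemma exists_k (n : ℕ) (hn : 12 ≤ n) : ∃ k : ℕ, 1 ≤ k ∧ (k ^ 3 + 1) ^ 2 + 4 * (k ^ 5 + 1) ≤ n ∧
    n < ((k + 1) ^ 3 + 1) ^ 2 + 4 * ((k + 1) ^ 5 + 1) := by
  set P : ℕ → Prop := fun k => (k ^ 3 + 1) ^ 2 + 4 * (k ^ 5 + 1) ≤ n with hP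
  classical
  have h1 : P 1 := by simp only [hP]; omega
  have h2 : P (Nat.findGreatest P n) := Nat.findGreatest_spec (P := P) (by omega : 1 ≤ n) h1
  have h3 : 1 ≤ Nat.findGreatest P n := Nat.le_findGreatest (by omega) h1
  refine ⟨Nat.findGreatest P n, h3, h2, ?_⟩
  by_contra h
  push Not at h
  have h4 : P (Nat.findGreatest P n + 1) := h
  have h5 : Nat.findGreatest P n + 1 ≤ n := by
    refine le_trans ?_ h
    have : Nat.findGreatest P n + 1 ≤ (Nat.findGreatest P n + 1) ^ 5 :=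
      Nat.le_self_pow (by norm_num) _
    nlinarith
  have := Nat.le_findGreatest h5 h4
  omega

/-- elementary estimate -/
lemma num_est {w ρ2 k n e : ℝ} (hk : 1 ≤ k) (hw0 : 0 ≤ w) (hw1 : w ≤ 1 / 3)
    (he0 : 0 ≤ e) (he : e ≤ 8 / k) (hρ : ρ2 * (1 + 3 / (4 * k ^ 4)) = 1) (hρ0 : 0 < ρ2)
    (hn0 : 0 ≤ n) (hn : n ≤ k ^ 6 + 212 * k ^ 5) :
    n * ((w + e) / (ρ2 * k ^ 6)) ≤ w + 3600 / k := by
  have hk0 : 0 < k := by linarith
  have h1 : 1 / ρ2 = 1 + 3 / (4 * k ^ 4) := by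
    field_simp
    field_simp at hρ
    linarith
  have h2 : (1 : ℝ) + 3 / (4 * k ^ 4) ≤ 1 + 1 / k := by
    have : 3 / (4 * k ^ 4) ≤ 1 / k := by
      rw [div_le_div_iff₀ (by positivity) hk0]
      have : k ≤ k ^ 4 := by nlinarith [pow_le_pow_left₀ zero_le_one hk 3, sq_nonneg k, sq_nonneg (k ^ 2)]
      nlinarith
    linarith
  have h3 : n / k ^ 6 ≤ 1 + 212 / k := by
    rw [div_le_iff₀ (by positivity)]
    have : (1 + 212 / k) * k ^ 6 = k ^ 6 + 212 * k ^ 5 := by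
      field_simp
    linarith
  have h4 : n * ((w + e) / (ρ2 * k ^ 6)) = (n / k ^ 6) * ((w + e) * (1 / ρ2)) := by
    field_simp
  rw [h4, h1]
  set y := 1 / k with hy
  have hy0 : 0 < y := by positivity
  have hy1 : y ≤ 1 := by rw [hy, div_le_one hk0]; exact hk
  have e1 : (8 : ℝ) / k = 8 * y := by rw [hy]; ring
  have e2 : (212 : ℝ) / k = 212 * y := by rw [hy]; ring
  have e3 : (3600 : ℝ) / k = 3600 * y := by rw [hy]; ring
  rw [e1] at he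
  rw [e2] at h3
  rw [e3]
  have h5 : (w + e) * (1 + 3 / (4 * k ^ 4)) ≤ (w + 8 * y) * (1 + y) := by
    apply mul_le_mul (by linarith) h2 (by positivity) (by linarith)
  have h6 : 0 ≤ (w + e) * (1 + 3 / (4 * k ^ 4)) := by positivity
  have h7 : (n / k ^ 6) * ((w + e) * (1 + 3 / (4 * k ^ 4))) ≤
      (1 + 212 * y) * ((w + 8 * y) * (1 + y)) :=
    mul_le_mul h3 h5 h6 (by positivity)
  refine h7.trans ?_
  have h8 : (1 + 212 * y) * (1 + y) ≤ 1 + 425 * y := by nlinarith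
  have h9 : (1 + 212 * y) * ((w + 8 * y) * (1 + y)) = w * ((1 + 212 * y) * (1 + y))
      + 8 * y * ((1 + 212 * y) * (1 + y)) := by ring
  rw [h9]
  have h10 : w * ((1 + 212 * y) * (1 + y)) ≤ w * (1 + 425 * y) := by gcongr
  have h11 : 8 * y * ((1 + 212 * y) * (1 + y)) ≤ 8 * y * 426 := by
    apply mul_le_mul_of_nonneg_left _ (by positivity)
    nlinarith
  nlinarith

theorem lower_rate (hLD : LdS) : ∃ C : ℝ, 0 ≤ C ∧ ∀ n : ℕ, 1 ≤ n →
    ENNReal.ofReal (1 - (2 * √3 - π) / (3 * √3 / 2) / n - C * (n : ℝ) ^ (-(7 / 6) : ℝ)) ≤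
      dT ℂ n := by
  have hs3 : (1.73205 : ℝ) < √3 := sqrt3_gt
  have hs3' : √3 < (1.73206 : ℝ) := sqrt3_lt
  have hsq := sqrt3_sq
  have hpi := Real.pi_gt_d2
  have hpi' := Real.pi_lt_d2
  refine ⟨6000, by norm_num, ?_⟩
  intro n hn
  have hn0 : (0 : ℝ) < n := by exact_mod_cast hn
  rcases lt_or_ge n 12 with h12 | h12
  · have hle : 1 - (2 * √3 - π) / (3 * √3 / 2) / n - 6000 * (n : ℝ) ^ (-(7 / 6) : ℝ) ≤ 0 := by
      have h1 : (0 : ℝ) ≤ (2 * √3 - π) / (3 * √3 / 2) / n := by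
        apply div_nonneg _ hn0.le
        apply div_nonneg (by linarith) (by linarith)
      have h2 : (n : ℝ) ^ (-(2 : ℝ)) ≤ (n : ℝ) ^ (-(7 / 6) : ℝ) := by
        apply Real.rpow_le_rpow_of_exponent_le (by exact_mod_cast hn) (by norm_num)
      have h3 : (n : ℝ) ^ (-(2 : ℝ)) = 1 / (n : ℝ) ^ 2 := by
        rw [Real.rpow_neg hn0.le]
        norm_num
      have h4 : (n : ℝ) ≤ 12 := by exact_mod_cast h12.le
      have h5 : (1 : ℝ) / 144 ≤ 1 / (n : ℝ) ^ 2 := by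
        apply one_div_le_one_div_of_le (by positivity)
        nlinarith
      linarith
    rw [ENNReal.ofReal_of_nonpos hle]
    exact bot_le
  · obtain ⟨k, hk1, hk2, hk3⟩ := exists_k n h12
    have hkr : (1 : ℝ) ≤ k := by exact_mod_cast hk1
    have hk0 : (0 : ℝ) < k := by linarith
    set q : ℝ := 1 + 3 / (4 * (k : ℝ) ^ 4) with hq
    have hq1 : 1 ≤ q := by
      rw [hq]
      have : (0 : ℝ) ≤ 3 / (4 * (k : ℝ) ^ 4) := by positivity
      linarith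
    have hq0 : 0 < q := by linarith
    set ρ : ℝ := √(1 / q) with hρ
    have hρ0 : 0 < ρ := Real.sqrt_pos.mpr (by positivity)
    have hρ2 : ρ ^ 2 = 1 / q := Real.sq_sqrt (by positivity)
    have hρ1 : ρ ^ 2 ≤ 1 := by
      rw [hρ2, div_le_one hq0]; exact hq1
    have hρle : ρ ≤ 1 := by nlinarith
    set p : ℝ := ρ * √3 * ((k ^ 3 : ℕ) : ℝ) with hp
    have hp0 : 0 < p := by
      rw [hp]; positivity
    have hpk : p = ρ * √3 * (k : ℝ) ^ 3 := by rw [hp]; push_cast; ring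
    have hcond : ρ ^ 2 + (p / ((k ^ 5 : ℕ) : ℝ)) ^ 2 / 4 ≤ 1 := by
      have : (p / ((k ^ 5 : ℕ) : ℝ)) ^ 2 / 4 = ρ ^ 2 * (3 / (4 * (k : ℝ) ^ 4)) := by
        rw [hpk]
        push_cast
        field_simp
        rw [hsq]
      rw [this]
      have h2 : ρ ^ 2 + ρ ^ 2 * (3 / (4 * (k : ℝ) ^ 4)) = ρ ^ 2 * q := by rw [hq]; ring
      rw [h2, hρ2]
      rw [one_div, inv_mul_cancel₀ hq0.ne']
    have hld := hLD n (k ^ 3) (k ^ 5) ρ p (Nat.one_le_pow _ _ hk1) (Nat.one_le_pow _ _ hk1) hρ0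
      hp hcond hk2
    refine le_trans (ENNReal.ofReal_le_ofReal ?_) hld
    set d := (π * ρ ^ 2 + 4 * ρ * p + √3 / 2 * p ^ 2) / (√3 / 2 * p ^ 2 + 4 * p + 2 * √3) with hd
    set w : ℝ := 2 * √3 - π with hw
    have hw0 : 0 ≤ w := by rw [hw]; linarith
    have hw1 : w ≤ 1 / 3 := by rw [hw]; linarith
    set e : ℝ := (π + 4 * p) * (1 - ρ ^ 2) with he
    have he0 : 0 ≤ e := by
      rw [he]
      apply mul_nonneg (by positivity)
      linarith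
    have h1ρ : 1 - ρ ^ 2 ≤ 3 / (4 * (k : ℝ) ^ 4) := by
      have h1 : ρ ^ 2 * q = 1 := by rw [hρ2, one_div, inv_mul_cancel₀ hq0.ne']
      have h2 : 1 - ρ ^ 2 = ρ ^ 2 * (3 / (4 * (k : ℝ) ^ 4)) := by
        rw [hq] at h1
        linarith
      rw [h2]
      have h3 : (0 : ℝ) ≤ 3 / (4 * (k : ℝ) ^ 4) := by positivity
      nlinarith
    have hek : e ≤ 8 / k := by
      have hp1 : p ≤ 1.73206 * (k : ℝ) ^ 3 := by
        rw [hpk]
        have : ρ * √3 ≤ 1.73206 := by nlinarith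
        have h3 : (0 : ℝ) < (k : ℝ) ^ 3 := by positivity
        nlinarith
      have h1 : e ≤ (3.15 + 4 * (1.73206 * (k : ℝ) ^ 3)) * (3 / (4 * (k : ℝ) ^ 4)) := by
        rw [he]
        apply mul_le_mul (by linarith) h1ρ (by linarith) (by positivity)
      refine h1.trans ?_
      have hk3' : (1 : ℝ) ≤ (k : ℝ) ^ 3 := one_le_pow₀ hkr
      rw [mul_div_assoc', div_le_div_iff₀ (by positivity) hk0]
      have h4 : (k : ℝ) ^ 4 = (k : ℝ) ^ 3 * k := by ring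
      rw [h4]
      have h5 : 0 ≤ ((k : ℝ) ^ 3 - 1) * k := mul_nonneg (by linarith) hk0.le
      nlinarith
    have hden : 0 < √3 / 2 * p ^ 2 + 4 * p + 2 * √3 := by positivity
    have hdd : 1 - d ≤ (w + e) / (√3 / 2 * p ^ 2) := by
      have h1 : 1 - d = (2 * √3 - π * ρ ^ 2 + 4 * p * (1 - ρ)) /
          (√3 / 2 * p ^ 2 + 4 * p + 2 * √3) := by
        rw [hd]
        field_simp
        ring
      have hnum : 2 * √3 - π * ρ ^ 2 + 4 * p * (1 - ρ) ≤ w + e := by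
        rw [hw, he]
        have : 1 - ρ ≤ 1 - ρ ^ 2 := by nlinarith
        have h3 : p * (1 - ρ) ≤ p * (1 - ρ ^ 2) := by gcongr
        nlinarith
      rw [h1]
      calc (2 * √3 - π * ρ ^ 2 + 4 * p * (1 - ρ)) / (√3 / 2 * p ^ 2 + 4 * p + 2 * √3)
          ≤ (w + e) / (√3 / 2 * p ^ 2 + 4 * p + 2 * √3) := by gcongr
        _ ≤ (w + e) / (√3 / 2 * p ^ 2) := by
            apply div_le_div_of_nonneg_left (by linarith) (by positivity)
            linarith [Real.sqrt_nonneg 3]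
    have hnk : (n : ℝ) ≤ (k : ℝ) ^ 6 + 212 * (k : ℝ) ^ 5 := by
      have h1 : (n : ℝ) ≤ (((k : ℝ) + 1) ^ 3 + 1) ^ 2 + 4 * (((k : ℝ) + 1) ^ 5 + 1) := by
        exact_mod_cast hk3.le
      refine h1.trans ?_
      have a1 : ((k : ℝ) + 1) ^ 3 + 1 ≤ (k : ℝ) ^ 3 + 8 * (k : ℝ) ^ 2 := by nlinarith
      have a2 : ((k : ℝ) + 1) ^ 5 ≤ (2 * (k : ℝ)) ^ 5 := by
        apply pow_le_pow_left₀ (by positivity); linarith
      have a3 : (((k : ℝ) + 1) ^ 3 + 1) ^ 2 ≤ ((k : ℝ) ^ 3 + 8 * (k : ℝ) ^ 2) ^ 2 := by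
        apply pow_le_pow_left₀ (by positivity) a1
      have a4 : ((k : ℝ) ^ 3 + 8 * (k : ℝ) ^ 2) ^ 2 = (k : ℝ) ^ 6 + 16 * (k : ℝ) ^ 5
          + 64 * (k : ℝ) ^ 4 := by ring
      have a5 : (k : ℝ) ^ 4 ≤ (k : ℝ) ^ 5 := pow_le_pow_right₀ hkr (by norm_num)
      have a6 : (1 : ℝ) ≤ (k : ℝ) ^ 5 := one_le_pow₀ hkr
      have a7 : (2 * (k : ℝ)) ^ 5 = 32 * (k : ℝ) ^ 5 := by ring
      linarith
    have hmain := num_est (w := w) (ρ2 := ρ ^ 2) (k := k) (n := n) (e := e) hkr hw0 hw1 he0 hek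
      (by rw [hρ2, ← hq, one_div, inv_mul_cancel₀ hq0.ne']) (by positivity) hn0.le hnk
    have hp2 : √3 / 2 * p ^ 2 = 3 * √3 / 2 * (ρ ^ 2 * (k : ℝ) ^ 6) := by
      rw [hpk]
      have : (ρ * √3 * (k : ℝ) ^ 3) ^ 2 = ρ ^ 2 * √3 ^ 2 * (k : ℝ) ^ 6 := by ring
      rw [this, hsq]; ring
    have hfin : (n : ℝ) * (1 - d) ≤ w / (3 * √3 / 2) + 3600 / k / (3 * √3 / 2) := by
      have h1 : (n : ℝ) * (1 - d) ≤ (n : ℝ) * ((w + e) / (√3 / 2 * p ^ 2)) := by gcongr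
      have h2 : (n : ℝ) * ((w + e) / (√3 / 2 * p ^ 2))
          = (n : ℝ) * ((w + e) / (ρ ^ 2 * (k : ℝ) ^ 6)) / (3 * √3 / 2) := by
        rw [hp2]
        field_simp
      rw [h2] at h1
      refine h1.trans ?_
      rw [← add_div]
      gcongr
    -- the exponent
    have hkn : 1 / (k : ℝ) ≤ 3 * (n : ℝ) ^ (-(1 / 6) : ℝ) := by
      have h1 : (n : ℝ) ≤ (3 * (k : ℝ)) ^ 6 := by
        have : (k : ℝ) ^ 5 ≤ (k : ℝ) ^ 6 := pow_le_pow_right₀ hkr (by norm_num)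
        have h3 : (3 * (k : ℝ)) ^ 6 = 729 * (k : ℝ) ^ 6 := by ring
        rw [h3]
        linarith
      have h2 : (n : ℝ) ^ ((1 / 6) : ℝ) ≤ 3 * k := by
        have h3 : (n : ℝ) ^ ((1 / 6) : ℝ) ≤ ((3 * (k : ℝ)) ^ 6) ^ ((1 / 6) : ℝ) :=
          Real.rpow_le_rpow hn0.le h1 (by norm_num)
        have h4 : ((3 * (k : ℝ)) ^ 6) ^ ((1 / 6) : ℝ) = 3 * k := by
          rw [← Real.rpow_natCast, ← Real.rpow_mul (by positivity)]
          norm_num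
        rwa [h4] at h3
      have h5 : 0 < (n : ℝ) ^ ((1 / 6) : ℝ) := Real.rpow_pos_of_pos hn0 _
      rw [Real.rpow_neg hn0.le]
      rw [div_le_iff₀ hk0]
      have h6 : 1 ≤ 3 * k * ((n : ℝ) ^ ((1 / 6) : ℝ))⁻¹ := by
        rw [← div_eq_mul_inv, le_div_iff₀ h5]; linarith
      linarith
    have hexp : (n : ℝ) ^ (-(7 / 6) : ℝ) = (n : ℝ) ^ (-(1 / 6) : ℝ) / n := by
      rw [show (-(7 / 6) : ℝ) = -(1 / 6) - 1 by norm_num, Real.rpow_sub hn0, Real.rpow_one]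
    have h36 : 3600 / (k : ℝ) / (3 * √3 / 2) ≤ 6000 * (n : ℝ) ^ (-(1 / 6) : ℝ) := by
      have h1 : 3600 / (k : ℝ) / (3 * √3 / 2) ≤ 3600 / (k : ℝ) / 2.5 := by
        apply div_le_div_of_nonneg_left (by positivity) (by norm_num) (by linarith)
      have h2 : 3600 / (k : ℝ) / 2.5 = 1440 * (1 / (k : ℝ)) := by
        field_simp; norm_num
      have h3 : 0 ≤ (n : ℝ) ^ (-(1 / 6) : ℝ) := Real.rpow_nonneg hn0.le _
      linarith
    rw [hexp]
    have h1 : 1 - d ≤ (w / (3 * √3 / 2) + 6000 * (n : ℝ) ^ (-(1 / 6) : ℝ)) / n := by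
      rw [le_div_iff₀ hn0]
      linarith
    have h2 : (w / (3 * √3 / 2) + 6000 * (n : ℝ) ^ (-(1 / 6) : ℝ)) / n
        = w / (3 * √3 / 2) / n + 6000 * ((n : ℝ) ^ (-(1 / 6) : ℝ) / n) := by ring
    rw [h2] at h1
    linarith

end FT58.AS.H30
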